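import Mathlib
open Polynomial MeasureTheory Set Filter Topology

namespace Pool.Agent.helper22.Erdos

lemma hasSum_neg_log {s : ℝ} (hs0 : 0 ≤ s) (hs1 : s < 1) (φ : ℝ) :
    HasSum (fun k : ℕ => s ^ k / k * Real.cos (k * φ)) (-(Real.log (1 - 2 * s * Real.cos φ + s ^ 2)) / 2) := by
  set z : ℂ := s * Complex.exp (φ * Complex.I) with hz
  have hzn : ‖z‖ < 1 := by
    rw [hz, norm_mul, Complex.norm_exp_ofReal_mul_I, mul_one, Complex.norm_real,
      Real.norm_eq_abs, abs_of_nonneg hs0]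
    exact hs1
  have h1 := Complex.hasSum_taylorSeries_neg_log hzn
  have h2 := Complex.hasSum_re h1
  have h3 : (-Complex.log (1 - z)).re = -(Real.log (1 - 2 * s * Real.cos φ + s ^ 2)) / 2 := by
    rw [Complex.neg_re, Complex.log_re]
    have h4 : ‖1 - z‖ = Real.sqrt (1 - 2 * s * Real.cos φ + s ^ 2) := by
      rw [Complex.norm_def]
      congr 1
      rw [Complex.normSq_apply, hz]
      have hre : (1 - (s:ℂ) * Complex.exp (φ * Complex.I)).re = 1 - s * Real.cos φ := by
        simp [Complex.exp_ofReal_mul_I_re]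
      have him : (1 - (s:ℂ) * Complex.exp (φ * Complex.I)).im = - (s * Real.sin φ) := by
        simp [Complex.exp_ofReal_mul_I_im]
      rw [hre, him]
      have := Real.sin_sq_add_cos_sq φ
      nlinarith
    rw [h4, Real.log_sqrt]
    · ring
    · have := Real.cos_le_one φ
      nlinarith [sq_nonneg (1 - s), Real.neg_one_le_cos φ]
  rw [h3] at h2
  convert h2 using 2 with k
  rw [hz, mul_pow, ← Complex.exp_nat_mul]
  have h5 : ((s:ℂ) ^ k * Complex.exp (k * (φ * Complex.I)) / k) =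
      ((s ^ k / k : ℝ) : ℂ) * Complex.exp (((k * φ : ℝ) : ℂ) * Complex.I) := by
    push_cast
    rw [mul_assoc (k:ℂ)]
    ring
  rw [h5, Complex.re_ofReal_mul, Complex.exp_ofReal_mul_I_re]

lemma energy_pos {ι : Type*} (I : Finset ι) (α : ι → ℝ) {s : ℝ} (hs0 : 0 ≤ s) (hs1 : s < 1) :
    ∑ i ∈ I, ∑ j ∈ I, (Real.log (1 - 2 * s * Real.cos (α i - α j) + s ^ 2) +
      Real.log (1 - 2 * s * Real.cos (α i + α j) + s ^ 2)) ≤ 0 := by
  have h1 : HasSum (fun k : ℕ => ∑ i ∈ I, ∑ j ∈ I, (s ^ k / k * Real.cos (k * (α i - α j)) +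
      s ^ k / k * Real.cos (k * (α i + α j))))
      (∑ i ∈ I, ∑ j ∈ I, (-(Real.log (1 - 2 * s * Real.cos (α i - α j) + s ^ 2)) / 2 +
        -(Real.log (1 - 2 * s * Real.cos (α i + α j) + s ^ 2)) / 2)) := by
    apply hasSum_sum
    intro i _
    apply hasSum_sum
    intro j _
    exact (hasSum_neg_log hs0 hs1 _).add (hasSum_neg_log hs0 hs1 _)
  have h2 := h1.nonneg (fun k => by
    have : ∑ i ∈ I, ∑ j ∈ I, (s ^ k / k * Real.cos (k * (α i - α j)) +
      s ^ k / k * Real.cos (k * (α i + α j))) =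
      2 * (s ^ k / k) * (∑ i ∈ I, Real.cos (k * α i)) ^ 2 := by
      rw [sq, Finset.sum_mul_sum, Finset.mul_sum]
      apply Finset.sum_congr rfl
      intro i _
      rw [Finset.mul_sum]
      apply Finset.sum_congr rfl
      intro j _
      rw [mul_sub, mul_add, Real.cos_sub, Real.cos_add]
      ring
    rw [this]
    positivity)
  have h3 : ∑ i ∈ I, ∑ j ∈ I, (-(Real.log (1 - 2 * s * Real.cos (α i - α j) + s ^ 2)) / 2 +
        -(Real.log (1 - 2 * s * Real.cos (α i + α j) + s ^ 2)) / 2) =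
      -(1/2) * ∑ i ∈ I, ∑ j ∈ I, (Real.log (1 - 2 * s * Real.cos (α i - α j) + s ^ 2) +
      Real.log (1 - 2 * s * Real.cos (α i + α j) + s ^ 2)) := by
    rw [Finset.mul_sum]
    apply Finset.sum_congr rfl
    intro i _
    rw [Finset.mul_sum]
    apply Finset.sum_congr rfl
    intro j _
    ring
  rw [h3] at h2
  linarith

/-- Truncated logarithmic energy of points of `[-1,1]`. -/
lemma trunc_energy {ι : Type*} (I : Finset ι) (x : ι → ℝ) (hx : ∀ i ∈ I, x i ∈ Icc (-1:ℝ) 1)
    {s : ℝ} (hs0 : 0 < s) (hs1 : s < 1) :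
    ∑ i ∈ I, ∑ j ∈ I, Real.log (max (2 * s * |x i - x j|) ((1 - s) ^ 2)) ≤ 0 := by
  have h1 := energy_pos I (fun i => Real.arccos (x i)) hs0.le hs1
  have h2 : ∑ i ∈ I, ∑ j ∈ I, 2 * Real.log (max (2 * s * |x i - x j|) ((1 - s) ^ 2)) ≤
      ∑ i ∈ I, ∑ j ∈ I,
      (Real.log (1 - 2 * s * Real.cos (Real.arccos (x i) - Real.arccos (x j)) + s ^ 2) +
      Real.log (1 - 2 * s * Real.cos (Real.arccos (x i) + Real.arccos (x j)) + s ^ 2)) := by
    apply Finset.sum_le_sum
    intro i hi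
    apply Finset.sum_le_sum
    intro j hj
    have hci := Real.cos_arccos (hx i hi).1 (hx i hi).2
    have hcj := Real.cos_arccos (hx j hj).1 (hx j hj).2
    set a := Real.arccos (x i)
    set b := Real.arccos (x j)
    set A := 1 - 2 * s * Real.cos (a - b) + s ^ 2
    set B := 1 - 2 * s * Real.cos (a + b) + s ^ 2
    have h1s : 0 < 1 - s := by linarith
    have hA1 : (1 - s) ^ 2 ≤ A := by
      have := Real.cos_le_one (a - b); simp only [A]; nlinarith
    have hB1 : (1 - s) ^ 2 ≤ B := by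
      have := Real.cos_le_one (a + b); simp only [B]; nlinarith
    have hA2 : 2 * s * (1 - Real.cos (a - b)) ≤ A := by
      simp only [A]; nlinarith [sq_nonneg (1 - s)]
    have hB2 : 2 * s * (1 - Real.cos (a + b)) ≤ B := by
      simp only [B]; nlinarith [sq_nonneg (1 - s)]
    have hprod : (1 - Real.cos (a - b)) * (1 - Real.cos (a + b)) = (x i - x j) ^ 2 := by
      rw [← hci, ← hcj, Real.cos_sub, Real.cos_add]
      have e1 := Real.sin_sq_add_cos_sq a
      have e2 := Real.sin_sq_add_cos_sq b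
      have e3 : Real.sin a ^ 2 = 1 - Real.cos a ^ 2 := by linarith
      have e4 : Real.sin b ^ 2 = 1 - Real.cos b ^ 2 := by linarith
      ring_nf
      rw [e3, e4]
      ring
    have hAB1 : ((1 - s) ^ 2) ^ 2 ≤ A * B := by
      rw [sq ((1 - s) ^ 2)]
      exact mul_le_mul hA1 hB1 (by positivity) (le_trans (by positivity) hA1)
    have hAB2 : (2 * s * |x i - x j|) ^ 2 ≤ A * B := by
      have h5 : (2 * s * |x i - x j|) ^ 2 =
          (2 * s * (1 - Real.cos (a - b))) * (2 * s * (1 - Real.cos (a + b))) := by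
        rw [mul_pow, sq_abs, ← hprod]; ring
      rw [h5]
      apply mul_le_mul hA2 hB2 _ (le_trans (by positivity) hA1)
      have := Real.cos_le_one (a + b)
      have h6 : 0 ≤ 1 - Real.cos (a + b) := by linarith
      positivity
    have hApos : 0 < A := lt_of_lt_of_le (by positivity) hA1
    have hBpos : 0 < B := lt_of_lt_of_le (by positivity) hB1
    have hmaxpos : 0 < max (2 * s * |x i - x j|) ((1 - s) ^ 2) :=
      lt_of_lt_of_le (by positivity) (le_max_right _ _)
    rw [← Real.log_mul hApos.ne' hBpos.ne']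
    have h7 : 2 * Real.log (max (2 * s * |x i - x j|) ((1 - s) ^ 2)) =
        Real.log ((max (2 * s * |x i - x j|) ((1 - s) ^ 2)) ^ 2) := by
      rw [Real.log_pow]; push_cast; ring
    rw [h7]
    apply Real.log_le_log (by positivity)
    rcases max_cases (2 * s * |x i - x j|) ((1 - s) ^ 2) with h | h
    · rw [h.1]; exact hAB2
    · rw [h.1]; exact hAB1
  have h3 : ∑ i ∈ I, ∑ j ∈ I, 2 * Real.log (max (2 * s * |x i - x j|) ((1 - s) ^ 2)) =
      2 * ∑ i ∈ I, ∑ j ∈ I, Real.log (max (2 * s * |x i - x j|) ((1 - s) ^ 2)) := by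
    rw [Finset.mul_sum]
    apply Finset.sum_congr rfl
    intro i _
    rw [Finset.mul_sum]
  linarith

end Pool.Agent.helper22.Erdos
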