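import Mathlib
import Pool.Agent.helper22.Erdos.Energy
open Polynomial MeasureTheory Set Filter Topology

namespace Pool.Agent.helper22.Erdos

lemma matrix_bound {n : ℕ} {ε κ Λ : ℝ} {x : ℕ → ℝ} (hε : 0 < ε)
    (hx : ∀ i < n + 1, x i ∈ Icc (-1:ℝ) 1)
    (hne : ∀ i < n + 1, ∀ j < n + 1, i ≠ j → x i ≠ x j)
    (H1 : ∀ k < n + 1, -(ε * n) ≤ ∑ i ∈ Finset.range k, Real.log (2 * |x k - x i|))
    (hκ0 : 0 ≤ κ) (hκ : κ ≤ ε) (hΛ0 : 0 ≤ Λ) (hΛ : Λ ≤ 11 * (ε * n)) (hn1 : Real.log 2 ≤ ε * n)
    (hn2 : Real.exp (-(ε * n)) ≤ 1 / 2)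
    (hn3 : ((n:ℝ) + 1) ^ 2 * (2 * Real.exp (-(ε * n))) ≤ ε * n) :
    ∑ i ∈ Finset.range (n + 1), ∑ j ∈ Finset.range (n + 1),
      (if |x i - x j| ≤ Real.exp (-(4 * (ε * n))) then Λ else -Real.log |x i - x j| + κ) ≤
      (Real.log 2 + 80 * ε) * ((n + 1 : ℕ) : ℝ) ^ 2 := by
  set R := Finset.range (n + 1) with hR
  set e := ε * n with he
  have hlog2 : 0 < Real.log 2 := Real.log_pos (by norm_num)
  have he0 : 0 < e := lt_of_lt_of_le hlog2 hn1
  set τ := Real.exp (-e) with hτ
  have hτ0 : 0 < τ := Real.exp_pos _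
  set s := 1 - τ with hs
  have hs0 : 0 < s := by rw [hs]; linarith
  have hs1 : s < 1 := by rw [hs]; linarith
  set ρ := Real.exp (-(4 * e)) with hρ
  have hρ0 : 0 < ρ := Real.exp_pos _
  set c : ℕ → ℕ → ℝ := fun i j => if |x i - x j| ≤ ρ then 1 else 0 with hc
  set D : ℕ → ℕ → ℝ := fun i j => Real.log (2 * |x i - x j|) with hD
  set NN : ℝ := ((n + 1 : ℕ) : ℝ) with hNN
  have hNNn : NN = n + 1 := by rw [hNN]; push_cast; ring
  have hn0 : (0:ℝ) ≤ n := Nat.cast_nonneg n
  have hc01 : ∀ i j, 0 ≤ c i j ∧ c i j ≤ 1 := by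
    intro i j; simp only [hc]; split_ifs <;> norm_num
  have hDsymm : ∀ i j, D i j = D j i := by
    intro i j; simp only [hD]; rw [abs_sub_comm]
  have hDdiag : ∀ i, D i i = 0 := by intro i; simp [hD]
  have hcdiag : ∀ i, c i i = 1 := by intro i; simp [hc, hρ0.le]
  set F := ∑ i ∈ R, ∑ j ∈ R, (1 - c i j) * D i j with hF
  set C := ∑ i ∈ R, ∑ j ∈ R, c i j with hC
  set T := ∑ i ∈ R, ∑ j ∈ R, D i j with hT
  -- lower bound for T
  have hTlow : -(2 * e * NN) ≤ T := by
    have h1 : T = 2 * ∑ k ∈ R, ∑ l ∈ Finset.range k, D k l := by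
      have gen : ∀ m : ℕ, ∑ i ∈ Finset.range m, ∑ j ∈ Finset.range m, D i j =
          2 * ∑ k ∈ Finset.range m, ∑ l ∈ Finset.range k, D k l := by
        intro m
        induction m with
        | zero => simp
        | succ m ih =>
          rw [Finset.sum_range_succ, Finset.sum_range_succ (fun k => ∑ l ∈ Finset.range k, D k l),
            Finset.sum_range_succ (fun j => D m j)]
          have h2 : ∑ i ∈ Finset.range m, ∑ j ∈ Finset.range (m + 1), D i j =
              ∑ i ∈ Finset.range m, ∑ j ∈ Finset.range m, D i j + ∑ i ∈ Finset.range m, D m i := by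
            rw [← Finset.sum_add_distrib]
            apply Finset.sum_congr rfl
            intro i _
            rw [Finset.sum_range_succ, hDsymm i m]
          rw [h2, ih, hDdiag]
          ring
      exact gen (n + 1)
    rw [h1]
    have h2 : ∑ k ∈ R, (-e) ≤ ∑ k ∈ R, ∑ l ∈ Finset.range k, D k l := by
      apply Finset.sum_le_sum
      intro k hk
      exact H1 k (Finset.mem_range.mp hk)
    rw [Finset.sum_const, Finset.card_range, nsmul_eq_mul] at h2
    change NN * (-e) ≤ _ at h2
    linarith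
  -- P2
  have hP2 : T ≤ F + C * (Real.log 2 - 4 * e) + NN * (4 * e - Real.log 2) := by
    have h1 : ∀ i ∈ R, ∀ j ∈ R, D i j ≤ (1 - c i j) * D i j + c i j * (Real.log 2 - 4 * e) +
        (if i = j then (4 * e - Real.log 2) else 0) := by
      intro i hi j hj
      by_cases hij : i = j
      · subst hij
        rw [hDdiag, hcdiag]; simp
      · simp only [hij, if_false, add_zero]
        by_cases hcl : |x i - x j| ≤ ρ
        · have hcc : c i j = 1 := by simp [hc, hcl]
          rw [hcc]
          have hpos : 0 < |x i - x j| := abs_pos.mpr (sub_ne_zero.mpr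
            (hne i (Finset.mem_range.mp hi) j (Finset.mem_range.mp hj) hij))
          have h3 : D i j = Real.log 2 + Real.log |x i - x j| :=
            Real.log_mul (by norm_num) hpos.ne'
          have h4 : Real.log |x i - x j| ≤ -(4 * e) := by
            have := Real.log_le_log hpos hcl
            rwa [hρ, Real.log_exp] at this
          rw [h3]; linarith
        · have hcc : c i j = 0 := by simp [hc, hcl]
          rw [hcc]; linarith
    calc T ≤ ∑ i ∈ R, ∑ j ∈ R, ((1 - c i j) * D i j + c i j * (Real.log 2 - 4 * e) +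
        (if i = j then (4 * e - Real.log 2) else 0)) :=
          Finset.sum_le_sum fun i hi => Finset.sum_le_sum fun j hj => h1 i hi j hj
      _ = _ := by
        simp_rw [Finset.sum_add_distrib]
        have h5 : ∑ i ∈ R, ∑ j ∈ R, c i j * (Real.log 2 - 4 * e) = C * (Real.log 2 - 4 * e) := by
          rw [hC, Finset.sum_mul]
          apply Finset.sum_congr rfl
          intro i _
          rw [Finset.sum_mul]
        have h6 : ∑ i ∈ R, ∑ j ∈ R, (if i = j then (4 * e - Real.log 2) else 0) =
            NN * (4 * e - Real.log 2) := by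
          have : ∀ i ∈ R, ∑ j ∈ R, (if i = j then (4 * e - Real.log 2) else 0) =
              (4 * e - Real.log 2) := by
            intro i hi
            rw [Finset.sum_ite_eq R i, if_pos hi]
          rw [Finset.sum_congr rfl this, Finset.sum_const, hR, Finset.card_range, nsmul_eq_mul]
        rw [h5, h6]
  -- P1
  have hlogs : Real.log s ≤ 0 := Real.log_nonpos hs0.le hs1.le
  have hCnn : 0 ≤ C := Finset.sum_nonneg fun i _ => Finset.sum_nonneg fun j _ => (hc01 i j).1
  have hP1 : F + NN ^ 2 * Real.log s - 2 * e * C ≤ 0 := by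
    have h1 := trunc_energy R x (fun i hi => hx i (Finset.mem_range.mp hi)) hs0 hs1
    have h2 : ∀ i ∈ R, ∀ j ∈ R, (1 - c i j) * D i j + Real.log s - c i j * (2 * e) ≤
        Real.log (max (2 * s * |x i - x j|) ((1 - s) ^ 2)) := by
      intro i hi j hj
      have hτs : 1 - s = τ := by rw [hs]; ring
      by_cases hcl : |x i - x j| ≤ ρ
      · have hcc : c i j = 1 := by simp [hc, hcl]
        rw [hcc]
        have h3 : Real.log ((1 - s) ^ 2) ≤ Real.log (max (2 * s * |x i - x j|) ((1 - s) ^ 2)) := by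
          apply Real.log_le_log _ (le_max_right _ _)
          rw [hτs]; positivity
        have h4 : Real.log ((1 - s) ^ 2) = -(2 * e) := by
          rw [hτs, Real.log_pow, hτ, Real.log_exp]; push_cast; ring
        linarith
      · have hcc : c i j = 0 := by simp [hc, hcl]
        rw [hcc]
        push Not at hcl
        have hpos : 0 < |x i - x j| := hρ0.trans hcl
        have h3 : Real.log (2 * s * |x i - x j|) ≤
            Real.log (max (2 * s * |x i - x j|) ((1 - s) ^ 2)) :=
          Real.log_le_log (by positivity) (le_max_left _ _)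
        have h4 : Real.log (2 * s * |x i - x j|) = D i j + Real.log s := by
          simp only [hD]
          rw [← Real.log_mul (by positivity) hs0.ne']
          congr 1; ring
        linarith
    have h3 : ∑ i ∈ R, ∑ j ∈ R, ((1 - c i j) * D i j + Real.log s - c i j * (2 * e)) ≤ 0 :=
      (Finset.sum_le_sum fun i hi => Finset.sum_le_sum fun j hj => h2 i hi j hj).trans h1
    have h4 : ∑ i ∈ R, ∑ j ∈ R, ((1 - c i j) * D i j + Real.log s - c i j * (2 * e)) =
        F + NN ^ 2 * Real.log s - 2 * e * C := by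
      simp_rw [Finset.sum_sub_distrib, Finset.sum_add_distrib]
      have h5 : ∑ i ∈ R, ∑ j ∈ R, c i j * (2 * e) = 2 * e * C := by
        rw [hC, Finset.mul_sum]
        apply Finset.sum_congr rfl
        intro i _
        rw [Finset.mul_sum]
        apply Finset.sum_congr rfl
        intro j _
        ring
      have h6 : ∑ i ∈ R, ∑ j ∈ R, Real.log s = NN ^ 2 * Real.log s := by
        simp only [Finset.sum_const, hR, Finset.card_range, nsmul_eq_mul]
        rw [hNN]; push_cast; ring
      rw [h5, h6]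
    linarith
  have hNNpos : 0 < NN := by rw [hNNn]; linarith
  have hNN1 : 1 ≤ NN := by rw [hNNn]; linarith
  have hlogs2 : -(NN ^ 2 * Real.log s) ≤ e := by
    have h1 : -Real.log s ≤ 2 * τ := by
      -- log s ≥ 1 - 1/s = -τ/(1-τ) ≥ -2τ
      have h2 := Real.one_sub_inv_le_log_of_pos hs0
      have h3 : s⁻¹ ≤ 1 + 2 * τ := by
        rw [inv_le_comm₀ hs0 (by positivity), inv_le_comm₀ (by positivity) hs0]
        rw [inv_le_comm₀ hs0 (by positivity)]
        rw [inv_eq_one_div, div_le_iff₀ (by positivity), hs]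
        nlinarith
      linarith
    have h2 : NN ^ 2 * (-Real.log s) ≤ NN ^ 2 * (2 * τ) := by gcongr
    rw [hNNn] at h2 ⊢
    linarith
  have hCN : NN ≤ C := by
    have h1 : ∀ i ∈ R, (1:ℝ) ≤ ∑ j ∈ R, c i j := by
      intro i hi
      calc (1:ℝ) = c i i := (hcdiag i).symm
        _ ≤ ∑ j ∈ R, c i j := Finset.single_le_sum (f := fun j => c i j) (fun j _ => (hc01 i j).1) hi
    have h2 : ∑ i ∈ R, (1:ℝ) ≤ C := Finset.sum_le_sum h1
    simpa [hR, hNN] using h2
  have hC7 : C ≤ 7 * NN := by
    have h1 : C * (2 * e - Real.log 2) ≤ 6 * e * NN + e := by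
      nlinarith
    have h2 : C * e ≤ C * (2 * e - Real.log 2) := by
      apply mul_le_mul_of_nonneg_left _ hCnn
      linarith
    have h3 : C * e ≤ (7 * NN) * e := by nlinarith
    exact le_of_mul_le_mul_right h3 he0
  have hFlow : -(2 * e * NN) ≤ F := by
    have h1 : 0 ≤ (C - NN) * (4 * e - Real.log 2) := by
      apply mul_nonneg <;> linarith
    linarith
  -- final
  have hfin : ∀ i ∈ R, ∀ j ∈ R, (if |x i - x j| ≤ ρ then Λ else -Real.log |x i - x j| + κ) ≤
      c i j * Λ + (Real.log 2 + κ) - (1 - c i j) * D i j := by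
    intro i hi j hj
    by_cases hcl : |x i - x j| ≤ ρ
    · have hcc : c i j = 1 := by simp [hc, hcl]
      rw [hcc, if_pos hcl]
      linarith
    · have hcc : c i j = 0 := by simp [hc, hcl]
      rw [hcc, if_neg hcl]
      push Not at hcl
      have hpos : 0 < |x i - x j| := hρ0.trans hcl
      have h3 : D i j = Real.log 2 + Real.log |x i - x j| :=
        Real.log_mul (by norm_num) hpos.ne'
      rw [h3]; linarith
  calc ∑ i ∈ R, ∑ j ∈ R, (if |x i - x j| ≤ ρ then Λ else -Real.log |x i - x j| + κ)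
      ≤ ∑ i ∈ R, ∑ j ∈ R, (c i j * Λ + (Real.log 2 + κ) - (1 - c i j) * D i j) :=
        Finset.sum_le_sum fun i hi => Finset.sum_le_sum fun j hj => hfin i hi j hj
    _ = C * Λ + NN ^ 2 * (Real.log 2 + κ) - F := by
        simp_rw [Finset.sum_sub_distrib, Finset.sum_add_distrib]
        have h5 : ∑ i ∈ R, ∑ j ∈ R, c i j * Λ = C * Λ := by
          rw [hC, Finset.sum_mul]
          apply Finset.sum_congr rfl
          intro i _
          rw [Finset.sum_mul]
        have h6 : ∑ i ∈ R, ∑ j ∈ R, Real.log 2 = NN ^ 2 * Real.log 2 := by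
          simp only [Finset.sum_const, hR, Finset.card_range, nsmul_eq_mul]
          rw [hNN]; push_cast; ring
        have h7 : ∑ i ∈ R, ∑ j ∈ R, κ = NN ^ 2 * κ := by
          simp only [Finset.sum_const, hR, Finset.card_range, nsmul_eq_mul]
          rw [hNN]; push_cast; ring
        rw [h5, h6, h7]; ring
    _ ≤ (7 * NN) * (11 * e) + NN ^ 2 * (Real.log 2 + ε) + 2 * e * NN := by
        have h1 : C * Λ ≤ (7 * NN) * (11 * e) := mul_le_mul hC7 hΛ hΛ0 (by positivity)
        have h2 : NN ^ 2 * (Real.log 2 + κ) ≤ NN ^ 2 * (Real.log 2 + ε) := by gcongr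
        linarith
    _ ≤ (Real.log 2 + 80 * ε) * NN ^ 2 := by
        have h1 : e ≤ ε * NN := by
          rw [he, hNNn]
          nlinarith
        have h2 : e * NN ≤ ε * NN ^ 2 := by nlinarith
        nlinarith

end Pool.Agent.helper22.Erdos
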