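import Mathlib
open Set Filter Topology Metric

namespace Pool.Agent.helper22.Erdos

/-- A zero-free holomorphic function on a disc centred at `0` has a holomorphic logarithm. -/
lemma exists_log {G : ℂ → ℂ} {ρ : ℝ} (hρ : 0 < ρ)
    (hG : DifferentiableOn ℂ G (ball 0 ρ)) (h0 : G 0 = 1)
    (hne : ∀ u ∈ ball (0:ℂ) ρ, G u ≠ 0) :
    ∃ L : ℂ → ℂ, DifferentiableOn ℂ L (ball 0 ρ) ∧ L 0 = 0 ∧
      ∀ u ∈ ball (0:ℂ) ρ, Complex.exp (L u) = G u := by
  have hG' : DifferentiableOn ℂ (deriv G) (ball 0 ρ) := hG.deriv isOpen_ball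
  have hq : DifferentiableOn ℂ (fun u => deriv G u / G u) (ball 0 ρ) := hG'.div hG hne
  obtain ⟨L, hL0, hL⟩ := (hq.isExactOn_ball).with_val_at 0 0
  have hLd : DifferentiableOn ℂ L (ball 0 ρ) := fun u hu =>
    (hL u hu).differentiableAt.differentiableWithinAt
  refine ⟨L, hLd, hL0, ?_⟩
  have hmem0 : (0:ℂ) ∈ ball (0:ℂ) ρ := by simpa using hρ
  have hder : ∀ u ∈ ball (0:ℂ) ρ, HasDerivAt (fun u => G u * Complex.exp (-L u)) 0 u := by
    intro u hu
    have h1 : HasDerivAt G (deriv G u) u :=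
      (hG.differentiableAt (isOpen_ball.mem_nhds hu)).hasDerivAt
    have h2 : HasDerivAt (fun u => Complex.exp (-L u)) (Complex.exp (-L u) * (-(deriv G u / G u))) u :=
      ((hL u hu).neg).cexp
    have h3 := h1.mul h2
    have hne' := hne u hu
    have h4 : deriv G u * Complex.exp (-L u) +
        G u * (Complex.exp (-L u) * (-(deriv G u / G u))) = 0 := by
      have h5 : G u * (Complex.exp (-L u) * (-(deriv G u / G u))) =
        -(deriv G u * Complex.exp (-L u)) * (G u / G u) := by ring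
      rw [h5, div_self hne']
      ring
    rw [h4] at h3
    exact h3
  have hconst : ∀ u ∈ ball (0:ℂ) ρ, G u * Complex.exp (-L u) = G 0 * Complex.exp (-L 0) := by
    intro u hu
    have := (convex_ball (0:ℂ) ρ).is_const_of_fderivWithin_eq_zero (𝕜 := ℂ)
      (f := fun u => G u * Complex.exp (-L u)) ?_ ?_ hu hmem0
    · exact this
    · intro v hv
      exact (hder v hv).differentiableAt.differentiableWithinAt
    · intro v hv
      rw [fderivWithin_of_isOpen isOpen_ball hv]
      have := (hder v hv).hasFDerivAt.fderiv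
      rw [this]
      ext
      simp
  intro u hu
  have h := hconst u hu
  rw [h0, hL0] at h
  simp only [neg_zero, Complex.exp_zero, mul_one] at h
  rw [Complex.exp_neg] at h
  have hexp : Complex.exp (L u) ≠ 0 := Complex.exp_ne_zero _
  field_simp at h
  exact h.symm

/-- Harnack-type upper bound for a zero-free holomorphic function. -/
lemma harnack_upper {G : ℂ → ℂ} {ρ M : ℝ} (hρ : 0 < ρ)
    (hG : DifferentiableOn ℂ G (ball 0 ρ)) (h0 : G 0 = 1) (hM : 0 < M)
    (hlow : ∀ u ∈ ball (0:ℂ) ρ, Real.exp (-M) ≤ ‖G u‖) :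
    ∀ u ∈ ball (0:ℂ) ρ, ‖G u‖ ≤ Real.exp (2 * M * ‖u‖ / (ρ - ‖u‖)) := by
  have hne : ∀ u ∈ ball (0:ℂ) ρ, G u ≠ 0 := by
    intro u hu h
    have := hlow u hu
    rw [h, norm_zero] at this
    exact absurd this (not_le.mpr (Real.exp_pos _))
  obtain ⟨L, hLd, hL0, hL⟩ := exists_log hρ hG h0 hne
  intro u hu
  have hB := Complex.borelCaratheodory_zero (f := fun u => -L u) (M := M) (R := ρ) hM hLd.neg ?_ hρ hu
    (by simp [hL0])
  · rw [← hL u hu, Complex.norm_exp]
    apply Real.exp_le_exp.mpr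
    calc (L u).re ≤ ‖L u‖ := Complex.re_le_norm _
      _ = ‖-L u‖ := (norm_neg _).symm
      _ ≤ _ := hB
  · intro v hv
    simp only [mem_ofPred_eq, Complex.neg_re]
    have h1 := hlow v hv
    rw [← hL v hv, Complex.norm_exp] at h1
    have := Real.exp_le_exp.mp h1
    linarith

end Pool.Agent.helper22.Erdos
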