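import Mathlib
open Polynomial MeasureTheory Set Filter Topology

namespace Pool.Agent.helper22.Erdos

/-- Standing hypotheses on the weight. -/
structure Wt (w : ℝ → ℝ) (M : ℝ) : Prop where
  meas : Measurable w
  nn : ∀ x, 0 ≤ w x
  le : ∀ x, w x ≤ M
  pos : ∀ a b : ℝ, -1 ≤ a → a < b → b ≤ 1 → 0 < ∫ x in a..b, w x

variable {w : ℝ → ℝ} {M : ℝ}

lemma Wt.intervalIntegrable (h : Wt w M) (a b : ℝ) : IntervalIntegrable w volume a b := by
  have : ∀ s : Set ℝ, volume s ≠ ⊤ → IntegrableOn w s volume := by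
    intro s hs
    have : IsFiniteMeasure (volume.restrict s) := ⟨by simpa using hs.lt_top⟩
    refine Integrable.of_bound h.meas.aestronglyMeasurable M (Eventually.of_forall fun x => ?_)
    rw [Real.norm_eq_abs, abs_of_nonneg (h.nn x)]
    exact h.le x
  exact ⟨this _ (by simp), this _ (by simp)⟩

lemma Wt.ii_mul (h : Wt w M) {f : ℝ → ℝ} (hf : Continuous f) (a b : ℝ) :
    IntervalIntegrable (fun x => f x * w x) volume a b :=
  (h.intervalIntegrable a b).continuousOn_mul hf.continuousOn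

/-- The weighted bilinear form. -/
noncomputable def Bf (w : ℝ → ℝ) (p q : ℝ[X]) : ℝ :=
  ∫ x in (-1:ℝ)..1, p.eval x * q.eval x * w x

lemma Wt.ii_poly (h : Wt w M) (p q : ℝ[X]) (a b : ℝ) :
    IntervalIntegrable (fun x => p.eval x * q.eval x * w x) volume a b :=
  h.ii_mul (by fun_prop) a b

lemma Bf_comm (p q : ℝ[X]) : Bf w p q = Bf w q p := by
  unfold Bf; congr 1; ext x; ring

lemma Bf_add_left (h : Wt w M) (p q r : ℝ[X]) : Bf w (p + q) r = Bf w p r + Bf w q r := by
  unfold Bf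
  rw [← intervalIntegral.integral_add (h.ii_poly p r _ _) (h.ii_poly q r _ _)]
  congr 1; ext x; simp; ring

lemma Bf_smul_left (c : ℝ) (p r : ℝ[X]) : Bf w (c • p) r = c * Bf w p r := by
  unfold Bf
  rw [← intervalIntegral.integral_const_mul]
  congr 1; ext x; simp; ring

lemma Bf_add_right (h : Wt w M) (p q r : ℝ[X]) : Bf w r (p + q) = Bf w r p + Bf w r q := by
  rw [Bf_comm, Bf_add_left h, Bf_comm p, Bf_comm q]

lemma Bf_smul_right (c : ℝ) (p r : ℝ[X]) : Bf w r (c • p) = c * Bf w r p := by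
  rw [Bf_comm, Bf_smul_left, Bf_comm p]

lemma Bf_self_nonneg (h : Wt w M) (p : ℝ[X]) : 0 ≤ Bf w p p := by
  unfold Bf
  apply intervalIntegral.integral_nonneg (by norm_num)
  intro x _
  have := h.nn x
  have h2 := mul_self_nonneg (p.eval x)
  positivity

lemma Bf_self_pos (h : Wt w M) {p : ℝ[X]} (hp : p ≠ 0) : 0 < Bf w p p := by
  rcases (Bf_self_nonneg h p).lt_or_eq with h1 | h1
  · exact h1
  exfalso
  have h2 : (fun x => p.eval x * p.eval x * w x) =ᵐ[volume.restrict (Ioc (-1:ℝ) 1)] 0 := by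
    have := (intervalIntegral.integral_eq_zero_iff_of_le_of_nonneg_ae (μ := volume)
      (a := (-1:ℝ)) (b := 1) (f := fun x => p.eval x * p.eval x * w x) (by norm_num) ?_
      (h.ii_poly p p _ _)).mp h1.symm
    · exact this
    · refine Eventually.of_forall fun x => ?_
      exact mul_nonneg (mul_self_nonneg _) (h.nn x)
  have h3 : ∀ᵐ x ∂(volume.restrict (Ioc (-1:ℝ) 1)), p.eval x ≠ 0 := by
    have hfin : (p.roots.toFinset : Set ℝ).Finite := Finset.finite_toSet _
    have : volume.restrict (Ioc (-1:ℝ) 1) (p.roots.toFinset : Set ℝ) = 0 :=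
      measure_mono_null (t := (p.roots.toFinset : Set ℝ)) subset_rfl
        (le_antisymm (le_trans (Measure.restrict_apply_le _ _) (by rw [hfin.measure_zero])) (zero_le))
    rw [ae_iff]
    refine measure_mono_null ?_ this
    intro x hx
    simp only [not_not, mem_ofPred_eq] at hx
    simp [hp, hx]
  have h4 : w =ᵐ[volume.restrict (Ioc (-1:ℝ) 1)] 0 := by
    filter_upwards [h2, h3] with x hx hx'
    simpa [hx'] using hx
  have h5 : ∫ x in (-1:ℝ)..1, w x = 0 := by
    rw [intervalIntegral.integral_of_le (by norm_num), integral_congr_ae h4]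
    simp
  have := h.pos (-1) 1 le_rfl (by norm_num) le_rfl
  linarith

/-- Existence of monic orthogonal polynomials. -/
lemma exists_op (h : Wt w M) (n : ℕ) : ∃ p : ℝ[X], p.Monic ∧ p.natDegree = n ∧
    ∀ q : ℝ[X], q.degree < n → Bf w p q = 0 := by
  let T : degreeLT ℝ n →ₗ[ℝ] (degreeLT ℝ n →ₗ[ℝ] ℝ) :=
    LinearMap.mk₂ ℝ (fun p q => Bf w p.1 q.1)
      (fun p q r => Bf_add_left h _ _ _) (fun c p q => Bf_smul_left _ _ _)
      (fun p q r => Bf_add_right h _ _ _) (fun c p q => Bf_smul_right _ _ _)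
  have hT : Function.Injective T := by
    rw [← LinearMap.ker_eq_bot, LinearMap.ker_eq_bot']
    intro p hp
    by_contra hne
    have h1 : T p p = 0 := by rw [hp]; rfl
    have h2 : 0 < Bf w p.1 p.1 := Bf_self_pos h (by simpa using hne)
    exact h2.ne' h1
  have hfr : Module.finrank ℝ (degreeLT ℝ n) = Module.finrank ℝ (degreeLT ℝ n →ₗ[ℝ] ℝ) := by
    rw [Subspace.dual_finrank_eq]
  have : FiniteDimensional ℝ (degreeLT ℝ n) := inferInstance
  have hsurj : Function.Surjective T :=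
    (LinearMap.injective_iff_surjective_of_finrank_eq_finrank hfr).mp hT
  let φ : degreeLT ℝ n →ₗ[ℝ] ℝ :=
    { toFun := fun q => Bf w (X ^ n) q.1
      map_add' := fun a b => Bf_add_right h _ _ _
      map_smul' := fun c a => Bf_smul_right _ _ _ }
  obtain ⟨r, hr⟩ := hsurj φ
  have hrdeg : r.1.degree < n := mem_degreeLT.mp r.2
  have hneg : (-r.1).degree < n := by rwa [degree_neg]
  refine ⟨X ^ n + (-r.1), ?_, ?_, ?_⟩
  · exact monic_X_pow_add hneg
  · have h1 : (X ^ n + (-r.1) : ℝ[X]).degree = n := by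
      rw [degree_add_eq_left_of_degree_lt (by rwa [degree_X_pow]), degree_X_pow]
    exact natDegree_eq_of_degree_eq_some h1
  · intro q hq
    have h1 : T r ⟨q, mem_degreeLT.mpr hq⟩ = φ ⟨q, mem_degreeLT.mpr hq⟩ := by rw [hr]
    have h2 : Bf w r.1 q = Bf w (X ^ n) q := h1
    have h3 : -r.1 = (-1 : ℝ) • r.1 := by simp
    rw [Bf_add_left h, h3, Bf_smul_left, h2]
    ring

end Pool.Agent.helper22.Erdos
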