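import Mathlib
import Pool.Agent.helper22.Erdos.OP
open Polynomial MeasureTheory Set Filter Topology

namespace Pool.Agent.helper22.Erdos

lemma den_lower {x : ℝ} (hx : x ∈ Icc (-1:ℝ) 1) {u : ℂ} (hu : ‖u‖ < 1) :
    (1 - ‖u‖) ^ 2 ≤ ‖1 - 2 * (x:ℂ) * u + u ^ 2‖ := by
  set s : ℝ := Real.sqrt (1 - x ^ 2) with hs
  have hs2 : s ^ 2 = 1 - x ^ 2 := Real.sq_sqrt (by nlinarith [hx.1, hx.2])
  set e : ℂ := ⟨x, s⟩
  set e' : ℂ := ⟨x, -s⟩
  have he : ‖e‖ = 1 := by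
    rw [Complex.norm_def, Complex.normSq_mk]
    rw [show x * x + s * s = 1 by nlinarith]; simp
  have he' : ‖e'‖ = 1 := by
    rw [Complex.norm_def, Complex.normSq_mk]
    rw [show x * x + -s * -s = 1 by nlinarith]; simp
  have hfac : 1 - 2 * (x:ℂ) * u + u ^ 2 = (1 - u * e) * (1 - u * e') := by
    have h1 : e + e' = 2 * (x:ℂ) := by
      apply Complex.ext <;> simp [e, e']; ring
    have h2 : e * e' = 1 := by
      apply Complex.ext <;> simp [e, e']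
      · nlinarith
      · ring
    calc 1 - 2 * (x:ℂ) * u + u ^ 2 = 1 - (e + e') * u + (e * e') * u ^ 2 := by rw [h1, h2]; ring
      _ = _ := by ring
  rw [hfac, norm_mul]
  have h1 : 1 - ‖u‖ ≤ ‖1 - u * e‖ := by
    have := norm_sub_norm_le (1:ℂ) (u * e)
    rw [norm_one, norm_mul, he, mul_one] at this
    exact this
  have h2 : 1 - ‖u‖ ≤ ‖1 - u * e'‖ := by
    have := norm_sub_norm_le (1:ℂ) (u * e')
    rw [norm_one, norm_mul, he', mul_one] at this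
    exact this
  have h3 : 0 ≤ 1 - ‖u‖ := by linarith
  calc (1 - ‖u‖) ^ 2 = (1 - ‖u‖) * (1 - ‖u‖) := by ring
    _ ≤ _ := mul_le_mul h1 h2 h3 (le_trans h3 h1)

lemma den_ne {x : ℝ} (hx : x ∈ Icc (-1:ℝ) 1) {u : ℂ} (hu : ‖u‖ < 1) :
    1 - 2 * (x:ℂ) * u + u ^ 2 ≠ 0 := by
  intro h
  have := den_lower hx hu
  rw [h, norm_zero] at this
  have h2 : 0 < (1 - ‖u‖) ^ 2 := by
    have : 0 < 1 - ‖u‖ := by linarith
    positivity
  linarith

/-- The kernel. -/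
noncomputable def kr (u : ℂ) (x : ℝ) : ℂ := (1 - u ^ 2) / (1 - 2 * (x:ℂ) * u + u ^ 2)

lemma kr_norm {x : ℝ} (hx : x ∈ Icc (-1:ℝ) 1) {u : ℂ} (hu : ‖u‖ < 1) :
    ‖kr u x‖ ≤ 2 / (1 - ‖u‖) ^ 2 := by
  unfold kr
  rw [norm_div]
  have h3 : 0 < 1 - ‖u‖ := by linarith
  have h1 : ‖1 - u ^ 2‖ ≤ 2 := by
    calc ‖1 - u ^ 2‖ ≤ ‖(1:ℂ)‖ + ‖u ^ 2‖ := norm_sub_le _ _
      _ ≤ 1 + 1 := by
        rw [norm_one, norm_pow]
        have := pow_le_one₀ (n := 2) (norm_nonneg u) hu.le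
        linarith
      _ = 2 := by norm_num
  exact div_le_div₀ (by norm_num) h1 (by positivity) (den_lower hx hu)

lemma kr_re {x : ℝ} (hx : x ∈ Icc (-1:ℝ) 1) {u : ℂ} (hu : ‖u‖ < 1) :
    (1 - ‖u‖) / (1 + ‖u‖) ≤ (kr u x).re := by
  set r := ‖u‖ with hr
  have hr0 : 0 ≤ r := norm_nonneg _
  have hr2 : r ^ 2 = u.re ^ 2 + u.im ^ 2 := by
    rw [hr, Complex.sq_norm, Complex.normSq_apply]; ring
  set a := u.re
  set b := u.im
  have ha : |a| ≤ r := Complex.abs_re_le_norm u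
  have hxa : |x| ≤ 1 := abs_le.mpr hx
  set t := 1 + r ^ 2 - 2 * a * x with ht
  have hax : |a * x| ≤ r := by
    rw [abs_mul]
    calc |a| * |x| ≤ r * 1 := mul_le_mul ha hxa (abs_nonneg _) hr0
      _ = r := mul_one r
  have ht1 : t ≤ (1 + r) ^ 2 := by
    have := (abs_le.mp hax).1
    nlinarith
  have ht0 : (1 - r) ^ 2 ≤ t := by
    have := (abs_le.mp hax).2
    nlinarith
  have h1r : 0 < 1 - r := by linarith
  have htpos : 0 < t := lt_of_lt_of_le (by positivity) ht0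
  have hD : Complex.normSq (1 - 2 * (x:ℂ) * u + u ^ 2) = t ^ 2 - 4 * b ^ 2 * (1 - x ^ 2) := by
    rw [Complex.normSq_apply]
    have hre : (1 - 2 * (x:ℂ) * u + u ^ 2).re = 1 - 2 * x * a + a ^ 2 - b ^ 2 := by
      simp [pow_two, a, b]; ring
    have him : (1 - 2 * (x:ℂ) * u + u ^ 2).im = - 2 * x * b + 2 * a * b := by
      simp [pow_two, a, b]; ring
    rw [hre, him, ht, hr2]
    ring
  have hDpos : 0 < Complex.normSq (1 - 2 * (x:ℂ) * u + u ^ 2) := Complex.normSq_pos.mpr (den_ne hx hu)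
  have hre : (kr u x).re = (1 - r ^ 2) * t / Complex.normSq (1 - 2 * (x:ℂ) * u + u ^ 2) := by
    unfold kr
    rw [Complex.div_re, ← add_div]
    congr 1
    have h1 : (1 - u ^ 2).re = 1 - a ^ 2 + b ^ 2 := by simp [pow_two, a, b]; ring
    have h2 : (1 - u ^ 2).im = - 2 * a * b := by simp [pow_two, a, b]; ring
    have h3 : (1 - 2 * (x:ℂ) * u + u ^ 2).re = 1 - 2 * x * a + a ^ 2 - b ^ 2 := by
      simp [pow_two, a, b]; ring
    have h4 : (1 - 2 * (x:ℂ) * u + u ^ 2).im = - 2 * x * b + 2 * a * b := by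
      simp [pow_two, a, b]; ring
    rw [h1, h2, h3, h4, ht, hr2]
    ring
  rw [hre]
  have hx2 : 0 ≤ 1 - x ^ 2 := by nlinarith [hx.1, hx.2]
  have hDle : Complex.normSq (1 - 2 * (x:ℂ) * u + u ^ 2) ≤ t ^ 2 := by
    rw [hD]; nlinarith [mul_nonneg (sq_nonneg b) hx2]
  have hnum : 0 ≤ (1 - r ^ 2) * t := by
    have : 0 ≤ 1 - r ^ 2 := by nlinarith
    positivity
  calc (1 - r) / (1 + r) = (1 - r ^ 2) / (1 + r) ^ 2 := by
        have : 1 + r ≠ 0 := by positivity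
        field_simp; ring
    _ ≤ (1 - r ^ 2) / t := by
        apply div_le_div_of_nonneg_left _ htpos ht1
        nlinarith
    _ = (1 - r ^ 2) * t / t ^ 2 := by field_simp
    _ ≤ _ := div_le_div_of_nonneg_left hnum hDpos hDle

end Pool.Agent.helper22.Erdos
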