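import Mathlib
import Pool.Agent.helper22.Erdos.Kernel
open Polynomial MeasureTheory Set Filter Topology

namespace Pool.Agent.helper22.Erdos

variable {w : ℝ → ℝ} {M : ℝ}

/-- The Cauchy-type transform in the uniformising variable. -/
noncomputable def KI (w : ℝ → ℝ) (f : ℝ[X]) (u : ℂ) : ℂ :=
  ∫ x in (-1:ℝ)..1, (((f.eval x * w x : ℝ)) : ℂ) * kr u x

lemma kr_continuousOn {u : ℂ} (hu : ‖u‖ < 1) : ContinuousOn (kr u) (Icc (-1:ℝ) 1) := by
  unfold kr
  apply ContinuousOn.div
  · fun_prop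
  · fun_prop
  · intro x hx
    exact den_ne hx hu

lemma Wt.ii_complex (h : Wt w M) {g : ℝ → ℂ} (hg : ContinuousOn g (Icc (-1:ℝ) 1)) :
    IntervalIntegrable (fun x => ((w x : ℝ) : ℂ) * g x) volume (-1) 1 := by
  have h1 : IntervalIntegrable (fun x => ((w x : ℝ) : ℂ)) volume (-1) 1 := by
    have := h.intervalIntegrable (-1) 1
    exact ⟨this.1.ofReal, this.2.ofReal⟩
  apply h1.mul_continuousOn
  rwa [uIcc_of_le (by norm_num : (-1:ℝ) ≤ 1)]

lemma Wt.ii_KI (h : Wt w M) (f : ℝ[X]) {u : ℂ} (hu : ‖u‖ < 1) :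
    IntervalIntegrable (fun x => (((f.eval x * w x : ℝ)) : ℂ) * kr u x) volume (-1) 1 := by
  have h1 : ContinuousOn (fun x : ℝ => ((f.eval x : ℝ) : ℂ) * kr u x) (Icc (-1:ℝ) 1) := by
    apply ContinuousOn.mul
    · fun_prop
    · exact kr_continuousOn hu
  have h2 := h.ii_complex h1
  refine h2.congr ?_
  intro x _
  simp only
  push_cast
  ring

lemma orth_complex (h : Wt w M) {n : ℕ} {p : ℝ[X]} (hp : ∀ r : ℝ[X], r.degree < n → Bf w p r = 0)
    {Q : ℂ[X]} (hQ : Q.degree < n) :
    ∫ x in (-1:ℝ)..1, (((p.eval x * w x : ℝ)) : ℂ) * Q.eval (x:ℂ) = 0 := by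
  rcases eq_or_ne Q 0 with rfl | hQ0
  · simp
  have hn : Q.natDegree < n := (natDegree_lt_iff_degree_lt hQ0).mpr hQ
  have h1 : ∀ x : ℝ, (((p.eval x * w x : ℝ)) : ℂ) * Q.eval (x:ℂ) =
      ∑ k ∈ Finset.range n, Q.coeff k * (((p.eval x * (X ^ k : ℝ[X]).eval x * w x : ℝ)) : ℂ) := by
    intro x
    rw [eval_eq_sum_range' hn, Finset.mul_sum]
    apply Finset.sum_congr rfl
    intro k _
    simp only [eval_pow, eval_X]
    push_cast
    ring
  simp_rw [h1]
  rw [intervalIntegral.integral_finsetSum]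
  · apply Finset.sum_eq_zero
    intro k hk
    rw [intervalIntegral.integral_const_mul, intervalIntegral.integral_ofReal]
    have : Bf w p (X ^ k) = 0 := hp _ (by
      rw [degree_X_pow]; exact_mod_cast Finset.mem_range.mp hk)
    unfold Bf at this
    rw [this]; simp
  · intro k _
    have := (h.ii_poly p (X ^ k) (-1) 1)
    have h2 : IntervalIntegrable
      (fun x => (((p.eval x * (X ^ k : ℝ[X]).eval x * w x : ℝ)) : ℂ)) volume (-1) 1 :=
      ⟨this.1.ofReal, this.2.ofReal⟩
    exact h2.const_mul _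

/-- The key identity. -/
lemma KI_identity (h : Wt w M) {n : ℕ} {p q : ℝ[X]}
    (hp : ∀ r : ℝ[X], r.degree < n → Bf w p r = 0)
    (hq : q.natDegree ≤ n) {u : ℂ} (hu0 : u ≠ 0) (hu : ‖u‖ < 1) :
    (q.map (algebraMap ℝ ℂ)).eval ((u + u⁻¹) / 2) * KI w p u = KI w (p * q) u := by
  set z : ℂ := (u + u⁻¹) / 2 with hz
  set qc : ℂ[X] := q.map (algebraMap ℝ ℂ) with hqc
  set Q : ℂ[X] := qc /ₘ (X - C z) with hQ
  have hmon : (X - C z : ℂ[X]).Monic := monic_X_sub_C z
  have hdiv : ∀ x : ℂ, qc.eval x = qc.eval z + (x - z) * Q.eval x := by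
    intro x
    have h1 := modByMonic_add_div qc (X - C z)
    rw [modByMonic_X_sub_C_eq_C_eval] at h1
    calc qc.eval x = (C (qc.eval z) + (X - C z) * (qc /ₘ (X - C z))).eval x := by rw [h1]
      _ = _ := by simp [hQ]
  have hQdeg : Q.degree < n := by
    by_cases hQ0 : Q = 0
    · rw [hQ0, degree_zero]; exact WithBot.bot_lt_coe _
    · have h1 : Q.natDegree = qc.natDegree - 1 := by
        rw [hQ, natDegree_divByMonic _ hmon, natDegree_X_sub_C]
      have h2 : qc.natDegree = q.natDegree := by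
        rw [hqc]; exact natDegree_map _
      have h3 : 1 ≤ qc.natDegree := by
        by_contra hcon
        apply hQ0
        rw [hQ, divByMonic_eq_zero_iff hmon, degree_X_sub_C]
        have h4 : qc.natDegree = 0 := by omega
        calc qc.degree ≤ 0 := natDegree_eq_zero_iff_degree_le_zero.mp h4
          _ < 1 := by norm_num
      rw [← natDegree_lt_iff_degree_lt hQ0, h1, h2]
      omega
  have key : KI w (p * q) u - qc.eval z * KI w p u =
      (-(1 - u ^ 2) / (2 * u)) * ∫ x in (-1:ℝ)..1, (((p.eval x * w x : ℝ)) : ℂ) * Q.eval (x:ℂ) := by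
    unfold KI
    rw [← intervalIntegral.integral_const_mul, ← intervalIntegral.integral_const_mul,
      ← intervalIntegral.integral_sub (h.ii_KI (p * q) hu) ((h.ii_KI p hu).const_mul _)]
    apply intervalIntegral.integral_congr
    intro x hx
    rw [uIcc_of_le (by norm_num : (-1:ℝ) ≤ 1)] at hx
    have hden := den_ne hx hu
    have h1 : ((q.eval x : ℝ) : ℂ) = qc.eval (x:ℂ) := by
      rw [hqc, eval_map_algebraMap]
      exact (aeval_algebraMap_apply_eq_algebraMap_eval x q).symm
    have h2 : (1 - 2 * (x:ℂ) * u + u ^ 2) = 2 * u * (z - x) := by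
      rw [hz]; field_simp; ring
    have h3 : z - x ≠ 0 := by
      intro h0; rw [h2, h0] at hden; simp at hden
    simp only [kr, eval_mul]
    push_cast
    rw [h1, hdiv x, h2]
    field_simp
    ring
  rw [orth_complex h hp hQdeg, mul_zero, sub_eq_zero] at key
  exact key.symm

/-- Lower bound for the transform of a square. -/
lemma KI_sq_lower (h : Wt w M) (p : ℝ[X]) {u : ℂ} (hu : ‖u‖ < 1) :
    (1 - ‖u‖) / (1 + ‖u‖) * Bf w p p ≤ ‖KI w (p * p) u‖ := by
  refine le_trans ?_ (Complex.re_le_norm _)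
  unfold KI Bf
  have hre : (∫ x in (-1:ℝ)..1, ((((p * p).eval x * w x : ℝ)) : ℂ) * kr u x).re =
      ∫ x in (-1:ℝ)..1, ((((((p * p).eval x * w x : ℝ)) : ℂ) * kr u x)).re := by
    have := intervalIntegral.intervalIntegral_eq_integral_uIoc
      (fun x => ((((p * p).eval x * w x : ℝ)) : ℂ) * kr u x) (-1) 1 volume
    rw [intervalIntegral.integral_of_le (by norm_num), intervalIntegral.integral_of_le (by norm_num)]
    have h2 := (h.ii_KI (p * p) hu).1
    exact (integral_re h2).symm
  rw [hre, ← intervalIntegral.integral_const_mul]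
  apply intervalIntegral.integral_mono_on (by norm_num)
  · exact (h.ii_poly p p _ _).const_mul _
  · have h2 := (h.ii_KI (p * p) hu)
    exact ⟨h2.1.re, h2.2.re⟩
  · intro x hx
    rw [Complex.re_ofReal_mul, eval_mul]
    have h3 := kr_re hx hu
    have h4 : 0 ≤ p.eval x * p.eval x * w x := mul_nonneg (mul_self_nonneg _) (h.nn x)
    nlinarith

/-- Upper bound for the transform. -/
lemma KI_upper (h : Wt w M) (p q : ℝ[X]) (hq : ∀ x ∈ Icc (-1:ℝ) 1, |q.eval x| ≤ 1)
    (hp : 0 < Bf w p p) {u : ℂ} (hu : ‖u‖ < 1) :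
    ‖KI w (p * q) u‖ ≤ 2 / (1 - ‖u‖) ^ 2 *
      (Real.sqrt (Bf w p p) * (1 + ∫ x in (-1:ℝ)..1, w x) / 2) := by
  set H := Bf w p p with hH
  set s := Real.sqrt H with hs
  have hs0 : 0 < s := Real.sqrt_pos.mpr hp
  have hss : s * s = H := Real.mul_self_sqrt hp.le
  have hval : s * (1 + ∫ x in (-1:ℝ)..1, w x) / 2 =
      ∫ x in (-1:ℝ)..1, (p.eval x * p.eval x * w x * (1 / (2 * s)) + (s / 2) * w x) := by
    rw [intervalIntegral.integral_add ((h.ii_poly p p _ _).mul_const _)
      ((h.intervalIntegrable _ _).const_mul _), intervalIntegral.integral_mul_const,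
      intervalIntegral.integral_const_mul]
    change _ = H * (1 / (2 * s)) + _
    rw [← hss]; field_simp
  rw [hval, ← intervalIntegral.integral_const_mul]
  unfold KI
  apply intervalIntegral.norm_integral_le_of_norm_le (by norm_num)
  · refine Eventually.of_forall fun x hx => ?_
    have hx' : x ∈ Icc (-1:ℝ) 1 := ⟨hx.1.le, hx.2⟩
    rw [norm_mul, Complex.norm_real, eval_mul, Real.norm_eq_abs, abs_mul, abs_mul,
      abs_of_nonneg (h.nn x)]
    have h1 := kr_norm hx' hu
    have h2 : |p.eval x| * |q.eval x| * w x ≤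
        p.eval x * p.eval x * w x * (1 / (2 * s)) + (s / 2) * w x := by
      have h3 : |p.eval x| * |q.eval x| ≤ |p.eval x| := by
        calc |p.eval x| * |q.eval x| ≤ |p.eval x| * 1 :=
              mul_le_mul_of_nonneg_left (hq x hx') (abs_nonneg _)
          _ = _ := mul_one _
      have h4 : |p.eval x| ≤ p.eval x * p.eval x * (1 / (2 * s)) + s / 2 := by
        have h5 : |p.eval x| ^ 2 = p.eval x * p.eval x := by rw [sq_abs]; ring
        rw [← h5]
        have h6 : |p.eval x| ^ 2 * (1 / (2 * s)) + s / 2 - |p.eval x| =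
          (|p.eval x| - s) ^ 2 / (2 * s) := by field_simp; ring
        have h7 : 0 ≤ (|p.eval x| - s) ^ 2 / (2 * s) := by positivity
        linarith
      calc |p.eval x| * |q.eval x| * w x ≤ |p.eval x| * w x :=
            mul_le_mul_of_nonneg_right h3 (h.nn x)
        _ ≤ (p.eval x * p.eval x * (1 / (2 * s)) + s / 2) * w x :=
            mul_le_mul_of_nonneg_right h4 (h.nn x)
        _ = _ := by ring
    calc |p.eval x| * |q.eval x| * w x * ‖kr u x‖ ≤
        (p.eval x * p.eval x * w x * (1 / (2 * s)) + (s / 2) * w x) * (2 / (1 - ‖u‖) ^ 2) := by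
          apply mul_le_mul h2 h1 (norm_nonneg _)
          have h8 := mul_self_nonneg (p.eval x)
          have h9 := h.nn x
          positivity
      _ = _ := by ring
  · exact (((h.ii_poly p p _ _).mul_const _).add ((h.intervalIntegrable _ _).const_mul _)).const_mul _

end Pool.Agent.helper22.Erdos
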