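import Mathlib
import Pool.Agent.helper22.Erdos.Ident
import Pool.Agent.helper22.Erdos.Harnack
open Polynomial MeasureTheory Set Filter Topology

namespace Pool.Agent.helper22.Erdos

variable {w : ℝ → ℝ} {M : ℝ}

lemma cheb_joukowski (n : ℕ) {u : ℂ} (hu0 : u ≠ 0) :
    ((Chebyshev.T ℝ n).map (algebraMap ℝ ℂ)).eval ((u + u⁻¹) / 2) = (u ^ n + (u⁻¹) ^ n) / 2 := by
  rw [Chebyshev.map_T]
  induction n using Nat.strong_induction_on with
  | _ n ih =>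
    match n with
    | 0 => simp
    | 1 => simp
    | (m + 2) =>
      have h1 := ih m (by omega)
      have h2 := ih (m + 1) (by omega)
      have h3 : Chebyshev.T ℂ ((m + 2 : ℕ) : ℤ) =
          2 * X * Chebyshev.T ℂ ((m + 1 : ℕ) : ℤ) - Chebyshev.T ℂ (m : ℤ) := by
        have := Chebyshev.T_add_two ℂ (m : ℤ)
        push_cast
        exact this
      rw [h3, eval_sub, eval_mul, eval_mul, h1, h2]
      simp only [eval_ofNat, eval_X]
      have huv : u * u⁻¹ = 1 := mul_inv_cancel₀ hu0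
      generalize u⁻¹ = v at huv
      linear_combination (u ^ m + v ^ m) / 2 * huv

lemma cheb_norm_lower (n : ℕ) {u : ℂ} (hu0 : u ≠ 0) (hn : ‖u‖ ^ n ≤ 1 / 2) :
    (‖u‖⁻¹) ^ n / 4 ≤
      ‖((Chebyshev.T ℝ n).map (algebraMap ℝ ℂ)).eval ((u + u⁻¹) / 2)‖ := by
  rw [cheb_joukowski n hu0, norm_div]
  have hpos : 0 < ‖u‖ ^ n := by
    have : 0 < ‖u‖ := norm_pos_iff.mpr hu0
    positivity
  have h1 : (‖u‖⁻¹) ^ n - ‖u‖ ^ n ≤ ‖u ^ n + (u⁻¹) ^ n‖ := by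
    have := norm_sub_norm_le ((u⁻¹) ^ n) (-(u ^ n))
    rw [sub_neg_eq_add, norm_neg, norm_pow, norm_pow, norm_inv, add_comm ((u⁻¹) ^ n)] at this
    exact this
  have h2 : 2 ≤ (‖u‖⁻¹) ^ n := by
    rw [inv_pow]
    rw [le_inv_comm₀ (by norm_num) hpos]
    linarith
  have h3 : ‖(2:ℂ)‖ = 2 := by norm_num
  rw [h3]
  linarith

/-- Lower bound for an orthogonal polynomial off the interval. -/
lemma op_lower (h : Wt w M) {n : ℕ} {p : ℝ[X]} (hmon : p.Monic)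
    (hp : ∀ r : ℝ[X], r.degree < n → Bf w p r = 0) (hdeg : p.natDegree = n)
    {u : ℂ} (hu0 : u ≠ 0) (hu : ‖u‖ < 1) (hn : ‖u‖ ^ n ≤ 1 / 2) :
    (1 - ‖u‖) ^ 3 / (8 * (1 + ∫ x in (-1:ℝ)..1, w x)) * Real.sqrt (Bf w p p) * (‖u‖⁻¹) ^ n ≤
      ‖(p.map (algebraMap ℝ ℂ)).eval ((u + u⁻¹) / 2)‖ := by
  set z := (u + u⁻¹) / 2
  set H := Bf w p p with hH
  have hHpos : 0 < H := Bf_self_pos h hmon.ne_zero
  set s := Real.sqrt H with hs
  have hs0 : 0 < s := Real.sqrt_pos.mpr hHpos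
  have hss : s * s = H := Real.mul_self_sqrt hHpos.le
  set W := ∫ x in (-1:ℝ)..1, w x with hW
  have hWpos : 0 < W := h.pos (-1) 1 le_rfl (by norm_num) le_rfl
  have e1 := KI_identity h hp hdeg.le hu0 hu
  have e2 := KI_identity h (q := Chebyshev.T ℝ n) hp
    (by rw [Chebyshev.natDegree_T]; simp) hu0 hu
  have l1 := KI_sq_lower h p hu
  have l2 := KI_upper h p (Chebyshev.T ℝ n)
    (fun x hx => Chebyshev.abs_eval_T_real_le_one n (abs_le.mpr hx)) hHpos hu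
  have l3 := cheb_norm_lower n hu0 hn
  set P := (p.map (algebraMap ℝ ℂ)).eval z
  set Tz := ((Chebyshev.T ℝ n).map (algebraMap ℝ ℂ)).eval z
  have e3 : Tz * KI w (p * p) u = P * KI w (p * Chebyshev.T ℝ n) u := by
    rw [← e1, ← e2]; ring
  have e4 : ‖Tz‖ * ‖KI w (p * p) u‖ = ‖P‖ * ‖KI w (p * Chebyshev.T ℝ n) u‖ := by
    rw [← norm_mul, ← norm_mul, e3]
  set r := ‖u‖ with hr
  have hr0 : 0 < r := norm_pos_iff.mpr hu0
  have h1r : 0 < 1 - r := by linarith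
  have hrn : 0 < (r⁻¹) ^ n := by positivity
  have c1 : (r⁻¹) ^ n / 4 * ((1 - r) / (1 + r) * (s * s)) ≤
      ‖P‖ * (2 / (1 - r) ^ 2 * (s * (1 + W) / 2)) := by
    calc (r⁻¹) ^ n / 4 * ((1 - r) / (1 + r) * (s * s)) ≤ ‖Tz‖ * ‖KI w (p * p) u‖ := by
          apply mul_le_mul l3 _ (by positivity) (norm_nonneg _)
          rw [hss]; exact l1
      _ = ‖P‖ * ‖KI w (p * Chebyshev.T ℝ n) u‖ := e4
      _ ≤ _ := mul_le_mul_of_nonneg_left l2 (norm_nonneg _)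
  have c2 : (1 - r) ^ 3 * s * (r⁻¹) ^ n ≤ 4 * (1 + r) * (1 + W) * ‖P‖ := by
    have h5 : (1 - r) ^ 3 * s * (r⁻¹) ^ n =
        ((r⁻¹) ^ n / 4 * ((1 - r) / (1 + r) * (s * s))) * (4 * (1 + r) * (1 - r) ^ 2 / s) := by
      field_simp
    have h6 : 4 * (1 + r) * (1 + W) * ‖P‖ =
        (‖P‖ * (2 / (1 - r) ^ 2 * (s * (1 + W) / 2))) * (4 * (1 + r) * (1 - r) ^ 2 / s) := by
      field_simp
    rw [h5, h6]
    exact mul_le_mul_of_nonneg_right c1 (by positivity)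
  have c3 : 4 * (1 + r) * (1 + W) * ‖P‖ ≤ 8 * (1 + W) * ‖P‖ := by
    have : 0 ≤ (1 + W) * ‖P‖ := by positivity
    nlinarith
  have h8 : 0 < 8 * (1 + W) := by positivity
  calc (1 - r) ^ 3 / (8 * (1 + W)) * s * (r⁻¹) ^ n = ((1 - r) ^ 3 * s * (r⁻¹) ^ n) / (8 * (1 + W)) := by
        ring
    _ ≤ (8 * (1 + W) * ‖P‖) / (8 * (1 + W)) := by
        apply div_le_div_of_nonneg_right (c2.trans c3) h8.le
    _ = ‖P‖ := by field_simp

/-- The normalised polynomial in the uniformising variable. -/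
noncomputable def Gp (p : ℝ[X]) (n : ℕ) (u : ℂ) : ℂ :=
  ∑ k ∈ Finset.range (n + 1), ((p.coeff k : ℝ) : ℂ) * (2 ^ (n - k) * u ^ (n - k) * (u ^ 2 + 1) ^ k)

lemma Gp_differentiable (p : ℝ[X]) (n : ℕ) : Differentiable ℂ (Gp p n) := by
  unfold Gp
  fun_prop

lemma Gp_zero {p : ℝ[X]} {n : ℕ} (hmon : p.Monic) (hdeg : p.natDegree = n) : Gp p n 0 = 1 := by
  unfold Gp
  rw [Finset.sum_eq_single n]
  · have : p.coeff n = 1 := by rw [← hdeg]; exact hmon.coeff_natDegree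
    simp [this]
  · intro k hk hkn
    have : n - k ≠ 0 := by
      have := Finset.mem_range.mp hk
      omega
    simp [this]
  · intro h
    simp at h

lemma Gp_eq {p : ℝ[X]} {n : ℕ} (hdeg : p.natDegree = n) {u : ℂ} (hu0 : u ≠ 0) :
    Gp p n u = 2 ^ n * u ^ n * (p.map (algebraMap ℝ ℂ)).eval ((u + u⁻¹) / 2) := by
  have hdeg' : (p.map (algebraMap ℝ ℂ)).natDegree < n + 1 := by
    rw [natDegree_map, hdeg]; omega
  rw [eval_eq_sum_range' hdeg', Finset.mul_sum]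
  unfold Gp
  apply Finset.sum_congr rfl
  intro k hk
  have hk' : k ≤ n := by
    have := Finset.mem_range.mp hk
    omega
  rw [coeff_map]
  have h1 : (2:ℂ) ^ n = 2 ^ (n - k) * 2 ^ k := by rw [← pow_add]; congr 1; omega
  have h2 : u ^ n = u ^ (n - k) * u ^ k := by rw [← pow_add]; congr 1; omega
  have h3 : u ^ 2 + 1 = 2 * u * ((u + u⁻¹) / 2) := by field_simp
  rw [h1, h2, h3, mul_pow, mul_pow]
  simp only [Complex.coe_algebraMap]
  ring

end Pool.Agent.helper22.Erdos
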