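import Mathlib
import Pool.Agent.helper22.Erdos.Upper
open Polynomial MeasureTheory Set Filter Topology

namespace Pool.Agent.helper22.Erdos

variable {w : ℝ → ℝ} {M : ℝ}

/-- The lower half of regularity. -/
def RegLow (w : ℝ → ℝ) : Prop := ∀ ε : ℝ, 0 < ε → ∀ᶠ n : ℕ in atTop, ∀ p : ℝ[X], p.Monic →
  p.natDegree = n → Real.exp (-(ε * n)) / 2 ^ n ≤ Real.sqrt (Bf w p p)

lemma annulus_max {f : ℂ → ℂ} {σ C : ℝ} (hσ0 : 0 < σ) (hσ1 : σ < 1)
    (hf : DifferentiableOn ℂ f {0}ᶜ) (hC : ∀ u : ℂ, ‖u‖ = σ → ‖f u‖ ≤ C)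
    (hsymm : ∀ u : ℂ, u ≠ 0 → f u⁻¹ = f u) {v : ℂ} (hv : ‖v‖ = 1) : ‖f v‖ ≤ C := by
  set U : Set ℂ := {u | σ < ‖u‖ ∧ ‖u‖ < σ⁻¹} with hU
  have hUo : IsOpen U := by
    apply IsOpen.inter
    · exact isOpen_lt continuous_const continuous_norm
    · exact isOpen_lt continuous_norm continuous_const
  set K : Set ℂ := {u | σ ≤ ‖u‖ ∧ ‖u‖ ≤ σ⁻¹} with hK
  have hKc : IsClosed K := by
    apply IsClosed.inter
    · exact isClosed_le continuous_const continuous_norm
    · exact isClosed_le continuous_norm continuous_const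
  have hUK : closure U ⊆ K := closure_minimal (fun u hu => ⟨hu.1.le, hu.2.le⟩) hKc
  have hUb : Bornology.IsBounded U := by
    apply (Metric.isBounded_closedBall (x := (0:ℂ)) (r := σ⁻¹)).subset
    intro u hu
    simp only [Metric.mem_closedBall, dist_zero_right]
    exact hu.2.le
  have hd : DiffContOnCl ℂ f U := by
    apply DifferentiableOn.diffContOnCl
    apply hf.mono
    intro u hu
    have := hUK hu
    simp only [mem_compl_iff, mem_singleton_iff]
    rintro rfl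
    have h1 := this.1
    simp at h1
    linarith
  apply Complex.norm_le_of_forall_mem_frontier_norm_le hUb hd
  · intro u hu
    have h1 : u ∈ K := hUK (frontier_subset_closure hu)
    have h2 : u ∉ U := by
      rw [hUo.frontier_eq] at hu
      exact hu.2
    have h3 : ‖u‖ = σ ∨ ‖u‖ = σ⁻¹ := by
      by_contra hcon
      push Not at hcon
      exact h2 ⟨lt_of_le_of_ne h1.1 (Ne.symm hcon.1), lt_of_le_of_ne h1.2 hcon.2⟩
    rcases h3 with h3 | h3
    · exact hC u h3
    · have hu0 : u ≠ 0 := by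
        rintro rfl
        simp only [norm_zero] at h3
        have : 0 < σ⁻¹ := inv_pos.mpr hσ0
        linarith
      rw [← hsymm u hu0]
      apply hC
      rw [norm_inv, h3, inv_inv]
  · apply subset_closure
    refine ⟨by rw [hv]; exact hσ1, by rw [hv]; exact (one_lt_inv₀ hσ0).mpr hσ1⟩

theorem op_upper (h : Wt w M) (hreg : RegLow w) {δ : ℝ} (hδ : 0 < δ) :
    ∀ᶠ n : ℕ in atTop, ∀ p : ℝ[X], p.Monic → p.natDegree = n →
      (∀ r : ℝ[X], r.degree < n → Bf w p r = 0) →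
      ∀ x ∈ Icc (-1:ℝ) 1, |p.eval x| ≤ Real.exp (δ * n) / 2 ^ n := by
  set σ := Real.exp (-δ / 2) with hσ
  have hσ0 : 0 < σ := Real.exp_pos _
  have hσ1 : σ < 1 := by rw [hσ, Real.exp_lt_one_iff]; linarith
  set ρ := (1 + σ) / 2 with hρ
  have hρσ : σ < ρ := by rw [hρ]; linarith
  have hρ1 : ρ < 1 := by rw [hρ]; linarith
  have hρ0 : 0 < ρ := by linarith
  set W := ∫ x in (-1:ℝ)..1, w x with hW
  have hWpos : 0 < W := h.pos (-1) 1 le_rfl (by norm_num) le_rfl
  set κ := (1 - ρ) ^ 3 / (8 * (1 + W)) with hκ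
  have h1ρ : 0 < 1 - ρ := by linarith
  have hκ0 : 0 < κ := by positivity
  set ε := δ * (ρ - σ) / (8 * σ) with hε
  have hρσ' : 0 < ρ - σ := by linarith
  have hε0 : 0 < ε := by positivity
  have ev1 := hreg ε hε0
  have ev2 : ∀ᶠ n : ℕ in atTop, ρ ^ n ≤ 1 / 2 :=
    (tendsto_pow_atTop_nhds_zero_of_lt_one hρ0.le hρ1).eventually_le_const (by norm_num)
  have ev3 : ∀ᶠ n : ℕ in atTop, Real.exp (-(ε * n)) ≤ κ := by
    have : Tendsto (fun n : ℕ => Real.exp (-(ε * n))) atTop (𝓝 0) := by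
      apply Real.tendsto_exp_neg_atTop_nhds_zero.comp
      exact (tendsto_natCast_atTop_atTop).const_mul_atTop hε0
    exact this.eventually_le_const hκ0
  filter_upwards [ev1, ev2, ev3, eventually_ge_atTop 1] with n e1 e2 e3 hn1 p hmon hdeg hp x hx
  have hnR : (1:ℝ) ≤ n := by exact_mod_cast hn1
  set s := Real.sqrt (Bf w p p) with hs
  have e1' := e1 p hmon hdeg
  have h2n : (0:ℝ) < 2 ^ n := by positivity
  have low : ∀ u ∈ Metric.ball (0:ℂ) ρ, Real.exp (-(2 * ε * n)) ≤ ‖Gp p n u‖ := by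
    intro u hu
    rw [Metric.mem_ball, dist_zero_right] at hu
    rcases eq_or_ne u 0 with rfl | hu0
    · rw [Gp_zero hmon hdeg, norm_one]
      apply Real.exp_le_one_iff.mpr
      have : 0 ≤ 2 * ε * n := by positivity
      linarith
    · have hr0 : 0 < ‖u‖ := norm_pos_iff.mpr hu0
      have hpow : ‖u‖ ^ n ≤ 1 / 2 := le_trans (pow_le_pow_left₀ hr0.le hu.le n) e2
      have hl := op_lower h hmon hp hdeg hu0 (hu.trans hρ1) hpow
      rw [Gp_eq hdeg hu0, norm_mul, norm_mul, norm_pow, norm_pow]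
      have h2 : ‖(2:ℂ)‖ = 2 := by norm_num
      rw [h2]
      have hk : κ ≤ (1 - ‖u‖) ^ 3 / (8 * (1 + W)) := by
        rw [hκ]
        have : 1 - ρ ≤ 1 - ‖u‖ := by linarith
        gcongr
      calc Real.exp (-(2 * ε * n)) = Real.exp (-(ε * n)) * (2 ^ n * (Real.exp (-(ε * n)) / 2 ^ n)) := by
            rw [mul_div_cancel₀ _ h2n.ne', ← Real.exp_add]; congr 1; ring
        _ ≤ κ * (2 ^ n * s) := by gcongr
        _ = 2 ^ n * ‖u‖ ^ n * (κ * s * (‖u‖⁻¹) ^ n) := by
            rw [inv_pow]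
            field_simp
        _ ≤ 2 ^ n * ‖u‖ ^ n * ((1 - ‖u‖) ^ 3 / (8 * (1 + W)) * s * (‖u‖⁻¹) ^ n) := by gcongr
        _ ≤ _ := by gcongr
  have hup := harnack_upper hρ0 (Gp_differentiable p n).differentiableOn (Gp_zero hmon hdeg)
    (by positivity : 0 < 2 * ε * n) low
  have hcirc : ∀ u : ℂ, ‖u‖ = σ →
      ‖(p.map (algebraMap ℝ ℂ)).eval ((u + u⁻¹) / 2)‖ ≤ Real.exp (δ * n) / 2 ^ n := by
    intro u hu
    have hu0 : u ≠ 0 := by rintro rfl; simp at hu; linarith
    have h1 := hup u (by rw [Metric.mem_ball, dist_zero_right, hu]; exact hρσ)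
    rw [Gp_eq hdeg hu0, norm_mul, norm_mul, norm_pow, norm_pow, hu] at h1
    have h2 : ‖(2:ℂ)‖ = 2 := by norm_num
    rw [h2] at h1
    have h3 : 2 * (2 * ε * n) * σ / (ρ - σ) = δ / 2 * n := by
      rw [hε]; field_simp; ring
    rw [h3] at h1
    have h4 : σ ^ n = Real.exp (-(δ / 2 * n)) := by
      rw [hσ, ← Real.exp_nat_mul]; congr 1; ring
    rw [h4] at h1
    set P := ‖(p.map (algebraMap ℝ ℂ)).eval ((u + u⁻¹) / 2)‖
    rw [le_div_iff₀ h2n]
    have h5 : P * 2 ^ n = (2 ^ n * Real.exp (-(δ / 2 * n)) * P) * Real.exp (δ / 2 * n) := by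
      have : Real.exp (-(δ / 2 * n)) * Real.exp (δ / 2 * n) = 1 := by
        rw [← Real.exp_add]; simp
      calc P * 2 ^ n = 2 ^ n * P * (Real.exp (-(δ / 2 * n)) * Real.exp (δ / 2 * n)) := by
            rw [this]; ring
        _ = _ := by ring
    rw [h5]
    calc _ ≤ Real.exp (δ / 2 * n) * Real.exp (δ / 2 * n) := by gcongr
      _ = Real.exp (δ * n) := by rw [← Real.exp_add]; congr 1; ring
  set α := Real.arccos x with hα
  have hcos : Real.cos α = x := Real.cos_arccos hx.1 hx.2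
  set v : ℂ := Complex.exp (α * Complex.I) with hv
  have hvn : ‖v‖ = 1 := Complex.norm_exp_ofReal_mul_I α
  have hfin := annulus_max (f := fun u => (p.map (algebraMap ℝ ℂ)).eval ((u + u⁻¹) / 2))
    hσ0 hσ1 ?_ hcirc ?_ hvn
  · have hz : (v + v⁻¹) / 2 = ((x:ℝ):ℂ) := by
      rw [← hcos, Complex.ofReal_cos, Complex.cos, hv, ← Complex.exp_neg]
      congr 3
      ring
    simp only [hz] at hfin
    have : (p.map (algebraMap ℝ ℂ)).eval ((x:ℝ):ℂ) = ((p.eval x : ℝ) : ℂ) := by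
      rw [eval_map_algebraMap]
      exact (aeval_algebraMap_apply_eq_algebraMap_eval x p)
    rw [this, Complex.norm_real] at hfin
    exact hfin
  · intro u hu
    have hu0 : u ≠ 0 := hu
    apply DifferentiableAt.differentiableWithinAt
    have h1 : DifferentiableAt ℂ (fun u : ℂ => (u + u⁻¹) / 2) u := by
      apply DifferentiableAt.div_const
      exact differentiableAt_id.add (differentiableAt_inv hu0)
    exact ((p.map (algebraMap ℝ ℂ)).differentiable _).comp u h1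
  · intro u hu0
    simp only [inv_inv]
    rw [add_comm]

end Pool.Agent.helper22.Erdos
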