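import Mathlib
import Pool.Agent.helper22.Erdos.OPUpper
open Polynomial MeasureTheory Set Filter Topology

namespace Pool.Agent.helper22.Erdos

variable {w : ℝ → ℝ} {M : ℝ}

lemma christoffel (h : Wt w M) {p : ℕ → ℝ[X]} (hmon : ∀ n, (p n).Monic)
    (hdeg : ∀ n, (p n).natDegree = n)
    (hp : ∀ n : ℕ, ∀ r : ℝ[X], r.degree < n → Bf w (p n) r = 0) (x : ℝ) :
    ∀ n : ℕ, ∀ P : ℝ[X], P.degree < n →
      (P.eval x) ^ 2 ≤ (∑ k ∈ Finset.range n, ((p k).eval x) ^ 2 / Bf w (p k) (p k)) * Bf w P P := by
  intro n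
  induction n with
  | zero =>
    intro P hP
    have : P = 0 := by
      rw [← degree_eq_bot]
      exact WithBot.lt_coe_bot.mp (by simpa using hP)
    rw [this]; simp
  | succ n ih =>
    intro P hP
    set a := P.coeff n with ha
    set R := P + (-a) • p n with hR
    set K := ∑ k ∈ Finset.range n, ((p k).eval x) ^ 2 / Bf w (p k) (p k) with hK
    set H := Bf w (p n) (p n) with hH
    have hHpos : 0 < H := Bf_self_pos h (hmon n).ne_zero
    have hRdeg : R.degree < n := by
      rw [degree_lt_iff_coeff_zero]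
      intro m hm
      rw [hR, coeff_add, coeff_smul, smul_eq_mul]
      rcases eq_or_lt_of_le hm with rfl | hm'
      · have : (p n).coeff n = 1 := by
          have := (hmon n).coeff_natDegree
          rwa [hdeg n] at this
        rw [this]; simp [ha]
      · have h1 : P.coeff m = 0 := by
          apply coeff_eq_zero_of_degree_lt
          apply hP.trans_le
          exact_mod_cast hm'
        have h2 : (p n).coeff m = 0 := by
          apply coeff_eq_zero_of_natDegree_lt
          rw [hdeg n]; exact hm'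
        rw [h1, h2]; simp
    have hPeq : P = R + a • p n := by
      rw [hR]; module
    have hBR : Bf w (p n) R = 0 := hp n R hRdeg
    have hB : Bf w P P = Bf w R R + a ^ 2 * H := by
      have hBR' : Bf w R (p n) = 0 := by rw [Bf_comm]; exact hBR
      rw [hPeq]
      generalize R = R' at *
      rw [Bf_add_left h, Bf_add_right h, Bf_smul_left, Bf_add_right h, Bf_smul_right,
        Bf_smul_right, hBR, hBR']
      ring
    have hKnn : 0 ≤ K := Finset.sum_nonneg fun k _ =>
      div_nonneg (sq_nonneg _) (Bf_self_nonneg h _)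
    have hBnn : 0 ≤ Bf w R R := Bf_self_nonneg h R
    have hIH := ih R hRdeg
    rw [Finset.sum_range_succ, hB]
    change _ ≤ (K + _ / H) * _
    have hev : P.eval x = R.eval x + a * (p n).eval x := by
      conv_lhs => rw [hPeq]
      simp
    rw [hev]
    set y := (p n).eval x
    set z := R.eval x
    set b := Bf w R R
    -- Cauchy-Schwarz
    have h1 : (K + y ^ 2 / H) * (b + a ^ 2 * H) = K * b + K * a ^ 2 * H + y ^ 2 / H * b + a ^ 2 * y ^ 2 := by
      field_simp; ring
    rw [h1]
    have h2 : 2 * z * (a * y) ≤ K * a ^ 2 * H + y ^ 2 / H * b := by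
      have h3 : (z * (a * y)) ^ 2 ≤ (K * a ^ 2 * H) * (y ^ 2 / H * b) := by
        calc (z * (a * y)) ^ 2 = z ^ 2 * (a ^ 2 * y ^ 2) := by ring
          _ ≤ (K * b) * (a ^ 2 * y ^ 2) := by gcongr
          _ = _ := by field_simp
      have h4 : 0 ≤ K * a ^ 2 * H := by positivity
      have h5 : 0 ≤ y ^ 2 / H * b := by positivity
      have h6 : (2 * (z * (a * y))) ^ 2 ≤ (K * a ^ 2 * H + y ^ 2 / H * b) ^ 2 := by
        nlinarith [sq_nonneg (K * a ^ 2 * H - y ^ 2 / H * b)]
      have h7 := abs_le_of_sq_le_sq h6 (by positivity)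
      have h8 := le_abs_self (2 * (z * (a * y)))
      linarith
    nlinarith

theorem bm (h : Wt w M) (hreg : RegLow w) {ε : ℝ} (hε : 0 < ε) :
    ∀ᶠ n : ℕ in atTop, ∀ P : ℝ[X], P.natDegree ≤ n → ∀ x ∈ Icc (-1:ℝ) 1,
      (P.eval x) ^ 2 ≤ Real.exp (ε * n) * Bf w P P := by
  choose p hmon hdeg hp using fun n => exists_op h n
  set δ := ε / 8 with hδ
  have hδ0 : 0 < δ := by positivity
  obtain ⟨k₀, hk₀⟩ := eventually_atTop.mp ((op_upper h hreg hδ0).and (hreg δ hδ0))
  have hbd : ∀ k, ∃ D : ℝ, 0 ≤ D ∧ ∀ x ∈ Icc (-1:ℝ) 1, ((p k).eval x) ^ 2 / Bf w (p k) (p k) ≤ D := by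
    intro k
    have hc : ContinuousOn (fun x => ((p k).eval x) ^ 2 / Bf w (p k) (p k)) (Icc (-1:ℝ) 1) := by
      fun_prop
    obtain ⟨C, hC⟩ := (isCompact_Icc.image_of_continuousOn hc).bddAbove
    refine ⟨max C 0, le_max_right _ _, fun x hx => ?_⟩
    exact (hC ⟨x, hx, rfl⟩).trans (le_max_left _ _)
  choose D hD0 hD using hbd
  set A := ∑ k ∈ Finset.range k₀, D k with hA
  have hA0 : 0 ≤ A := Finset.sum_nonneg fun k _ => hD0 k
  have ev : ∀ᶠ n : ℕ in atTop, (A + 1) + n ≤ Real.exp (4 * δ * n) := by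
    have h1 : Tendsto (fun n : ℕ => Real.exp (4 * δ * n) - n * (2:ℝ)) atTop atTop := by
      have h2 : Tendsto (fun y : ℝ => Real.exp y - y * (1 / (2 * δ))) atTop atTop := by
        have := tendsto_exp_div_rpow_atTop 1
        have h3 : (fun y : ℝ => Real.exp y - y * (1 / (2 * δ))) =ᶠ[atTop]
            (fun y => y * (Real.exp y / y ^ (1:ℝ) - 1 / (2 * δ))) := by
          filter_upwards [eventually_gt_atTop 0] with y hy
          rw [Real.rpow_one]; field_simp
        rw [tendsto_congr' h3]
        exact tendsto_id.atTop_mul_atTop₀ (tendsto_atTop_add_const_right _ _ this)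
      have h4 : Tendsto (fun n : ℕ => 4 * δ * (n:ℝ)) atTop atTop :=
        (tendsto_natCast_atTop_atTop).const_mul_atTop (by positivity)
      have h5 := h2.comp h4
      refine h5.congr fun n => ?_
      simp only [Function.comp]
      field_simp
      ring
    filter_upwards [h1.eventually_ge_atTop (A + 1)] with n hn
    have : (0:ℝ) ≤ n := Nat.cast_nonneg n
    linarith
  filter_upwards [ev] with n hn P hP x hx
  have hc := christoffel h hmon hdeg hp x (n + 1) P
    (by
      apply lt_of_le_of_lt (degree_le_natDegree)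
      exact_mod_cast (by omega : P.natDegree < n + 1))
  refine hc.trans ?_
  apply mul_le_mul_of_nonneg_right _ (Bf_self_nonneg h P)
  have hterm : ∀ k ∈ Finset.range (n + 1), ((p k).eval x) ^ 2 / Bf w (p k) (p k) ≤
      (if k < k₀ then D k else 0) + Real.exp (4 * δ * n) := by
    intro k hk
    have hkn : k ≤ n := by have := Finset.mem_range.mp hk; omega
    have hexp0 : 0 < Real.exp (4 * δ * n) := Real.exp_pos _
    split_ifs with hlt
    · have := hD k x hx
      linarith
    · push Not at hlt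
      obtain ⟨h1, h2⟩ := hk₀ k hlt
      have h3 := h1 (p k) (hmon k) (hdeg k) (hp k) x hx
      have h4 := h2 (p k) (hmon k) (hdeg k)
      have hHpos : 0 < Bf w (p k) (p k) := Bf_self_pos h (hmon k).ne_zero
      have h5 : (Real.exp (-(δ * k)) / 2 ^ k) ^ 2 ≤ Bf w (p k) (p k) := by
        calc (Real.exp (-(δ * k)) / 2 ^ k) ^ 2 ≤ (Real.sqrt (Bf w (p k) (p k))) ^ 2 := by gcongr
          _ = _ := Real.sq_sqrt hHpos.le
      have h6 : ((p k).eval x) ^ 2 ≤ (Real.exp (δ * k) / 2 ^ k) ^ 2 := by
        rw [← sq_abs]; gcongr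
      have h7 : ((p k).eval x) ^ 2 / Bf w (p k) (p k) ≤
          (Real.exp (δ * k) / 2 ^ k) ^ 2 / (Real.exp (-(δ * k)) / 2 ^ k) ^ 2 := by
        apply div_le_div₀ (by positivity) h6 (by positivity) h5
      have h8 : (Real.exp (δ * k) / 2 ^ k) ^ 2 / (Real.exp (-(δ * k)) / 2 ^ k) ^ 2 =
          Real.exp (4 * δ * k) := by
        rw [← div_pow, div_div_div_cancel_right₀ (by positivity), ← Real.exp_sub,
          ← Real.exp_nat_mul]
        congr 1; push_cast; ring
      have h9 : Real.exp (4 * δ * k) ≤ Real.exp (4 * δ * n) := by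
        apply Real.exp_le_exp.mpr
        have : (k:ℝ) ≤ n := by exact_mod_cast hkn
        gcongr
      rw [zero_add]
      exact (h7.trans_eq h8).trans h9
  calc ∑ k ∈ Finset.range (n + 1), ((p k).eval x) ^ 2 / Bf w (p k) (p k)
      ≤ ∑ k ∈ Finset.range (n + 1), ((if k < k₀ then D k else 0) + Real.exp (4 * δ * n)) :=
        Finset.sum_le_sum hterm
    _ = ∑ k ∈ Finset.range (n + 1), (if k < k₀ then D k else 0) + (n + 1) * Real.exp (4 * δ * n) := by
        rw [Finset.sum_add_distrib]; simp
    _ ≤ A + (n + 1) * Real.exp (4 * δ * n) := by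
        gcongr
        rw [← Finset.sum_filter, hA]
        apply Finset.sum_le_sum_of_subset_of_nonneg
        · intro k hk
          simp only [Finset.mem_filter] at hk
          exact Finset.mem_range.mpr hk.2
        · intro k _ _
          exact hD0 k
    _ ≤ Real.exp (4 * δ * n) * Real.exp (4 * δ * n) := by
        have h1 : 1 ≤ Real.exp (4 * δ * n) := Real.one_le_exp (by positivity)
        calc A + (n + 1) * Real.exp (4 * δ * n) ≤
            A * Real.exp (4 * δ * n) + (n + 1) * Real.exp (4 * δ * n) := by nlinarith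
          _ = (A + 1 + n) * Real.exp (4 * δ * n) := by ring
          _ ≤ _ := by gcongr
    _ = Real.exp (ε * n) := by
        rw [← Real.exp_add]; congr 1; rw [hδ]; ring

end Pool.Agent.helper22.Erdos
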