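import Mathlib
import Pool.Agent.helper22.Erdos.BM
open Polynomial MeasureTheory Set Filter Topology

namespace Pool.Agent.helper22.Erdos

variable {w : ℝ → ℝ} {M : ℝ}

theorem robust (h : Wt w M) (hreg : RegLow w) {ε : ℝ} (hε : 0 < ε) :
    ∀ᶠ n : ℕ in atTop, ∀ G : Set ℝ, MeasurableSet G →
      volume ({x : ℝ | x ∈ Icc (-1:ℝ) 1 ∧ 0 < w x} \ G) ≤ ENNReal.ofReal (Real.exp (-(ε * n))) →
      ∀ P : ℝ[X], P.natDegree ≤ n → ∀ S : ℝ, (∀ x ∈ G, |P.eval x| ≤ S) → 0 ≤ S →
        ∀ x ∈ Icc (-1:ℝ) 1, |P.eval x| ≤ Real.exp (ε * n) * S := by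
  have hM0 : 0 < M := by
    by_contra hcon
    push Not at hcon
    have h1 : ∀ x, w x = 0 := fun x => le_antisymm ((h.le x).trans hcon) (h.nn x)
    have h2 := h.pos (-1) 1 le_rfl (by norm_num) le_rfl
    simp [h1] at h2
  have ev1 := bm h hreg (ε := ε / 2) (by positivity)
  have ev2 : ∀ᶠ n : ℕ in atTop, M * Real.exp (-(ε / 2 * n)) ≤ 1 / 2 := by
    have : Tendsto (fun n : ℕ => M * Real.exp (-(ε / 2 * n))) atTop (𝓝 (M * 0)) := by
      apply Tendsto.const_mul
      apply Real.tendsto_exp_neg_atTop_nhds_zero.comp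
      exact (tendsto_natCast_atTop_atTop).const_mul_atTop (by positivity)
    rw [mul_zero] at this
    exact this.eventually_le_const (by norm_num)
  have ev3 : ∀ᶠ n : ℕ in atTop, 4 * M ≤ Real.exp (3 * ε / 2 * n) := by
    have : Tendsto (fun n : ℕ => Real.exp (3 * ε / 2 * n)) atTop atTop := by
      apply Real.tendsto_exp_atTop.comp
      exact (tendsto_natCast_atTop_atTop).const_mul_atTop (by positivity)
    exact this.eventually_ge_atTop _
  filter_upwards [ev1, ev2, ev3] with n e1 e2 e3 G hG hvol P hP S hS hS0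
  set E : Set ℝ := {x : ℝ | x ∈ Icc (-1:ℝ) 1 ∧ 0 < w x} with hE
  have hEm : MeasurableSet E := measurableSet_Icc.inter (h.meas measurableSet_Ioi)
  obtain ⟨x₀, hx₀, hmax⟩ := isCompact_Icc.exists_isMaxOn (nonempty_Icc.mpr (by norm_num : (-1:ℝ) ≤ 1))
    (f := fun x => |P.eval x|) (by fun_prop)
  set m := |P.eval x₀| with hm
  have hm0 : 0 ≤ m := abs_nonneg _
  have hle : ∀ x ∈ Icc (-1:ℝ) 1, |P.eval x| ≤ m := fun x hx => hmax hx
  have hB : Bf w P P ≤ S ^ 2 * (2 * M) + m ^ 2 * M * Real.exp (-(ε * n)) := by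
    have hpt : ∀ x ∈ Icc (-1:ℝ) 1, P.eval x * P.eval x * w x ≤
        S ^ 2 * M + m ^ 2 * M * (E \ G).indicator (fun _ => (1:ℝ)) x := by
      intro x hx
      have hsq : P.eval x * P.eval x = |P.eval x| ^ 2 := by rw [sq_abs]; ring
      rw [hsq]
      by_cases hxG : x ∈ G
      · have h1 : |P.eval x| ^ 2 ≤ S ^ 2 := pow_le_pow_left₀ (abs_nonneg _) (hS x hxG) 2
        have h2 : |P.eval x| ^ 2 * w x ≤ S ^ 2 * M := mul_le_mul h1 (h.le x) (h.nn x) (by positivity)
        have h3 : 0 ≤ (E \ G).indicator (fun _ => (1:ℝ)) x := indicator_nonneg (fun _ _ => zero_le_one) _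
        have h4 : 0 ≤ m ^ 2 * M * (E \ G).indicator (fun _ => (1:ℝ)) x := by positivity
        linarith
      · by_cases hw : 0 < w x
        · have h1 : x ∈ E \ G := ⟨⟨hx, hw⟩, hxG⟩
          rw [indicator_of_mem h1]
          have h2 : |P.eval x| ^ 2 ≤ m ^ 2 := pow_le_pow_left₀ (abs_nonneg _) (hle x hx) 2
          have h3 : |P.eval x| ^ 2 * w x ≤ m ^ 2 * M := mul_le_mul h2 (h.le x) (h.nn x) (by positivity)
          have h4 : 0 ≤ S ^ 2 * M := by positivity
          linarith
        · have h1 : w x = 0 := le_antisymm (not_lt.mp hw) (h.nn x)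
          rw [h1, mul_zero]
          have h3 : 0 ≤ (E \ G).indicator (fun _ => (1:ℝ)) x := indicator_nonneg (fun _ _ => zero_le_one) _
          positivity
    have hind : IntegrableOn ((E \ G).indicator (fun _ => (1:ℝ))) (Ioc (-1:ℝ) 1) volume := by
      apply IntegrableOn.indicator _ (hEm.diff hG)
      simp
    have hii : IntervalIntegrable ((E \ G).indicator (fun _ => (1:ℝ))) volume (-1) 1 :=
      (intervalIntegrable_iff_integrableOn_Ioc_of_le (by norm_num)).mpr hind
    calc Bf w P P ≤ ∫ x in (-1:ℝ)..1, (S ^ 2 * M + m ^ 2 * M * (E \ G).indicator (fun _ => (1:ℝ)) x) := by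
          unfold Bf
          apply intervalIntegral.integral_mono_on (by norm_num) (h.ii_poly P P _ _)
          · exact (intervalIntegrable_const).add (hii.const_mul _)
          · exact hpt
      _ = S ^ 2 * (2 * M) + m ^ 2 * M * ∫ x in (-1:ℝ)..1, (E \ G).indicator (fun _ => (1:ℝ)) x := by
          rw [intervalIntegral.integral_add intervalIntegrable_const (hii.const_mul _)]
          have h7 : ∫ x in (-1:ℝ)..1, m ^ 2 * M * (E \ G).indicator (fun _ => (1:ℝ)) x =
              m ^ 2 * M * ∫ x in (-1:ℝ)..1, (E \ G).indicator (fun _ => (1:ℝ)) x :=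
            intervalIntegral.integral_const_mul _ _
          rw [h7]
          simp only [intervalIntegral.integral_const, smul_eq_mul]
          ring
      _ ≤ _ := by
          have : ∫ x in (-1:ℝ)..1, (E \ G).indicator (fun _ => (1:ℝ)) x ≤ Real.exp (-(ε * n)) := by
            rw [intervalIntegral.integral_of_le (by norm_num)]
            have h8 : ∫ x in Ioc (-1:ℝ) 1, (E \ G).indicator (fun _ => (1:ℝ)) x =
              (volume.restrict (Ioc (-1:ℝ) 1)).real (E \ G) := integral_indicator_one (hEm.diff hG)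
            rw [h8, measureReal_def]
            apply ENNReal.toReal_le_of_le_ofReal (Real.exp_pos _).le
            exact (Measure.restrict_apply_le _ _).trans hvol
          gcongr
  have hkey := e1 P hP x₀ hx₀
  have hm2 : (P.eval x₀) ^ 2 = m ^ 2 := by rw [hm, sq_abs]
  rw [hm2] at hkey
  have h1 : m ^ 2 ≤ 4 * M * Real.exp (ε / 2 * n) * S ^ 2 := by
    have h2 : Real.exp (ε / 2 * n) * (m ^ 2 * M * Real.exp (-(ε * n))) =
        m ^ 2 * (M * Real.exp (-(ε / 2 * n))) := by
      have : Real.exp (ε / 2 * n) * Real.exp (-(ε * n)) = Real.exp (-(ε / 2 * n)) := by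
        rw [← Real.exp_add]; congr 1; ring
      rw [← this]; ring
    have h3 : m ^ 2 ≤ Real.exp (ε / 2 * n) * (S ^ 2 * (2 * M)) + m ^ 2 * (1 / 2) := by
      calc m ^ 2 ≤ Real.exp (ε / 2 * n) * Bf w P P := hkey
        _ ≤ Real.exp (ε / 2 * n) * (S ^ 2 * (2 * M) + m ^ 2 * M * Real.exp (-(ε * n))) := by gcongr
        _ = Real.exp (ε / 2 * n) * (S ^ 2 * (2 * M)) + m ^ 2 * (M * Real.exp (-(ε / 2 * n))) := by
            rw [mul_add, h2]
        _ ≤ _ := by gcongr
    nlinarith
  have h2 : m ^ 2 ≤ (Real.exp (ε * n) * S) ^ 2 := by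
    calc m ^ 2 ≤ 4 * M * Real.exp (ε / 2 * n) * S ^ 2 := h1
      _ ≤ Real.exp (3 * ε / 2 * n) * Real.exp (ε / 2 * n) * S ^ 2 := by gcongr
      _ = (Real.exp (ε * n) * S) ^ 2 := by
          rw [mul_pow, ← Real.exp_nat_mul, ← Real.exp_add]
          congr 2; push_cast; ring
  have h3 : m ≤ Real.exp (ε * n) * S := by
    have := abs_le_of_sq_le_sq h2 (by positivity)
    exact (le_abs_self m).trans this
  intro x hx
  exact (hle x hx).trans h3

end Pool.Agent.helper22.Erdos
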