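import Mathlib
open Polynomial MeasureTheory Set Filter Topology

namespace Pool.Agent.helper22.Erdos

lemma log_integrableOn {S : Set ℝ} (hSb : S ⊆ Icc (-1:ℝ) 1) (a : ℝ) :
    IntegrableOn (fun y => -Real.log |y - a|) S volume := by
  have h1 : IntervalIntegrable (fun y => Real.log (y - a)) volume (-1) 1 := by
    have := intervalIntegral.intervalIntegrable_log' (a := -1 - a) (b := 1 - a)
    exact this.comp_sub_right a |>.congr (by intro x _; rfl) |> (by simpa using ·)
  have h2 : IntegrableOn (fun y => Real.log (y - a)) (Icc (-1:ℝ) 1) volume := by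
    rw [integrableOn_Icc_iff_integrableOn_Ioc]
    exact (intervalIntegrable_iff_integrableOn_Ioc_of_le (by norm_num)).mp h1
  have h3 := (h2.mono_set hSb).neg
  refine h3.congr (Eventually.of_forall fun y => ?_)
  simp [Real.log_abs]

lemma log_int {S : Set ℝ} (hSb : S ⊆ Icc (-1:ℝ) 1) {σ : ℝ} (hσ : 0 < σ)
    (hvol : volume.real S = σ) (a : ℝ) :
    ∫ y in S, (-Real.log |y - a|) ≤ σ * (Real.log (2 / σ) + 1) := by
  set t := σ / 2 with ht
  have ht0 : 0 < t := by positivity
  set g : ℝ → ℝ := (Ioo (a - t) (a + t)).indicator (fun y => Real.log t - Real.log |y - a|) with hg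
  have hfin : volume S ≠ ⊤ := by
    have := measure_mono (μ := volume) hSb
    exact (this.trans_lt (by simp)).ne
  have hlogint : IntervalIntegrable (fun y => Real.log t - Real.log (y - a)) volume (a - t) (a + t) := by
    have := (intervalIntegral.intervalIntegrable_log' (a := -t) (b := t)).comp_sub_right a
    have h2 : IntervalIntegrable (fun y => Real.log (y - a)) volume (a - t) (a + t) := by
      convert this using 1 <;> ring
    exact intervalIntegrable_const.sub h2
  have hgint : Integrable g volume := by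
    rw [hg, integrable_indicator_iff measurableSet_Ioo]
    have h1 : IntegrableOn (fun y => Real.log t - Real.log (y - a)) (Ioc (a - t) (a + t)) volume :=
      (intervalIntegrable_iff_integrableOn_Ioc_of_le (by linarith)).mp hlogint
    refine (h1.mono_set Ioo_subset_Ioc_self).congr (Eventually.of_forall fun y => ?_)
    simp [Real.log_abs]
  have hg0 : 0 ≤ᵐ[volume] g := by
    have hae : ∀ᵐ y ∂(volume : Measure ℝ), y ≠ a := by
      rw [ae_iff]; simp
    filter_upwards [hae] with z hne
    rw [hg]
    by_cases hz : z ∈ Ioo (a - t) (a + t)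
    · rw [indicator_of_mem hz]
      have h1 : 0 < |z - a| := abs_pos.mpr (sub_ne_zero.mpr hne)
      have h2 : |z - a| ≤ t := by
        rw [abs_le]; constructor <;> linarith [hz.1, hz.2]
      have := Real.log_le_log h1 h2
      simp only [Pi.zero_apply]
      linarith
    · rw [indicator_of_notMem hz]; simp
  have hpt : ∀ y, -Real.log |y - a| ≤ -Real.log t + g y := by
    intro y
    rw [hg]
    by_cases hy : y ∈ Ioo (a - t) (a + t)
    · rw [indicator_of_mem hy]; linarith
    · rw [indicator_of_notMem hy]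
      have h1 : t ≤ |y - a| := by
        by_contra hcon
        push Not at hcon
        rw [abs_lt] at hcon
        exact hy ⟨by linarith [hcon.1], by linarith [hcon.2]⟩
      have := Real.log_le_log ht0 h1
      linarith
  have hgval : ∫ y, g y = 2 * t := by
    rw [hg, integral_indicator measurableSet_Ioo, ← integral_Ioc_eq_integral_Ioo,
      ← intervalIntegral.integral_of_le (by linarith)]
    simp_rw [Real.log_abs]
    have h1 : ∫ y in (a - t)..(a + t), (Real.log t - Real.log (y - a)) =
        ∫ y in (-t)..t, (Real.log t - Real.log y) := by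
      rw [intervalIntegral.integral_comp_sub_right (fun y => Real.log t - Real.log y)]
      congr 1 <;> ring
    rw [h1, intervalIntegral.integral_sub intervalIntegrable_const
      intervalIntegral.intervalIntegrable_log', integral_log, intervalIntegral.integral_const,
      Real.log_neg_eq_log]
    simp only [smul_eq_mul]
    ring
  have hintc : Integrable (fun _ : ℝ => -Real.log t) (volume.restrict S) := by
    have : IntegrableOn (fun _ : ℝ => -Real.log t) S volume := integrableOn_const hfin
    exact this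
  have hintg : Integrable g (volume.restrict S) := hgint.integrableOn
  have hint1 : IntegrableOn (fun y => -Real.log t + g y) S volume := hintc.add hintg
  calc ∫ y in S, (-Real.log |y - a|) ≤ ∫ y in S, (-Real.log t + g y) :=
        setIntegral_mono (log_integrableOn hSb a) hint1 hpt
    _ = -Real.log t * σ + ∫ y in S, g y := by
        rw [integral_add hintc hintg, setIntegral_const, hvol]
        simp only [smul_eq_mul]
        ring
    _ ≤ -Real.log t * σ + 2 * t := by
        rw [← hgval]
        have := setIntegral_le_integral (s := S) hgint hg0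
        linarith
    _ = σ * (Real.log (2 / σ) + 1) := by
        rw [ht, Real.log_div hσ.ne' (by norm_num), Real.log_div (by norm_num) hσ.ne']
        ring

lemma pick {S : Set ℝ} (hS : MeasurableSet S) (hSb : S ⊆ Icc (-1:ℝ) 1) {s : ℝ} (hs : 0 < s)
    (hvol : s ≤ volume.real S) (J : Finset ℕ) (y : ℕ → ℝ) (k : ℕ) :
    ∃ v ∈ S, (∀ l < k, v ≠ y l) ∧
      ∑ l ∈ J, (-Real.log |v - y l|) ≤ J.card * (Real.log (2 / s) + 1) := by
  set F : Set ℝ := y '' (Iio k) with hF
  have hFfin : F.Finite := (finite_Iio k).image y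
  set S' := S \ F with hS'
  have hS'm : MeasurableSet S' := hS.diff hFfin.measurableSet
  have hS'b : S' ⊆ Icc (-1:ℝ) 1 := sdiff_subset.trans hSb
  have hvol' : volume S' = volume S := measure_sdiff_null (hFfin.measure_zero volume)
  have hfin : volume S' ≠ ⊤ := by
    have := measure_mono (μ := volume) hS'b
    exact (this.trans_lt (by simp)).ne
  set σ := volume.real S' with hσ
  have hσs : s ≤ σ := by rw [hσ, measureReal_def, hvol']; exact hvol
  have hσ0 : 0 < σ := lt_of_lt_of_le hs hσs
  have hne0 : volume S' ≠ 0 := by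
    intro h0
    rw [hσ, measureReal_def, h0] at hσ0
    simp at hσ0
  have hint : IntegrableOn (fun v => ∑ l ∈ J, (-Real.log |v - y l|)) S' volume :=
    integrable_finsetSum _ fun l _ => log_integrableOn hS'b (y l)
  obtain ⟨v, hv, hle⟩ := exists_le_setAverage hne0 hfin hint
  refine ⟨v, hv.1, ?_, ?_⟩
  · intro l hl hvl
    exact hv.2 ⟨l, hl, hvl.symm⟩
  · refine hle.trans ?_
    rw [setAverage_eq, smul_eq_mul, integral_finsetSum _ fun l _ => log_integrableOn hS'b (y l)]
    have h1 : ∑ l ∈ J, ∫ v in S', (-Real.log |v - y l|) ≤ ∑ l ∈ J, σ * (Real.log (2 / σ) + 1) :=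
      Finset.sum_le_sum fun l _ => log_int hS'b hσ0 rfl (y l)
    rw [Finset.sum_const, nsmul_eq_mul] at h1
    have h2 : Real.log (2 / σ) ≤ Real.log (2 / s) := by
      apply Real.log_le_log (by positivity)
      apply div_le_div_of_nonneg_left (by norm_num) hs hσs
    calc σ⁻¹ * ∑ l ∈ J, ∫ v in S', (-Real.log |v - y l|)
        ≤ σ⁻¹ * (J.card * (σ * (Real.log (2 / σ) + 1))) := by gcongr
      _ = J.card * (Real.log (2 / σ) + 1) := by field_simp
      _ ≤ _ := by gcongr

/-- Choice of a sequence by strong recursion. -/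
lemma exists_seq (Q : ℕ → (ℕ → ℝ) → ℝ → Prop)
    (hcongr : ∀ k f g v, (∀ l < k, f l = g l) → Q k f v → Q k g v)
    (hex : ∀ k f, ∃ v, Q k f v) : ∃ y : ℕ → ℝ, ∀ k, Q k y (y k) := by
  classical
  choose F hF using hex
  let step : ∀ n : ℕ, (∀ m < n, ℝ) → ℝ := fun n ih => F n (fun m => if h : m < n then ih m h else 0)
  let y : ℕ → ℝ := fun n => Nat.strongRecOn n step
  refine ⟨y, fun k => ?_⟩
  have h1 : y k = F k (fun m => if m < k then y m else 0) := by
    have : y k = step k (fun m _ => y m) := Nat.strongRecOn_eq step k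
    rw [this]
    simp only [step]
    congr 1
  have h2 := hF k (fun m => if m < k then y m else 0)
  rw [← h1] at h2
  apply hcongr k _ y (y k) _ h2
  intro l hl
  simp [hl]

lemma exists_points {N : ℕ} (hN : 0 < N) {S : ℕ → Set ℝ} (hS : ∀ i < N, MeasurableSet (S i))
    (hSb : ∀ i < N, S i ⊆ Icc (-1:ℝ) 1) {s : ℝ} (hs : 0 < s)
    (hvol : ∀ i < N, s ≤ volume.real (S i)) (close : ℕ → ℕ → Prop) [DecidableRel close] :
    ∃ y : ℕ → ℝ, ∀ k, y k ∈ S (k % N) ∧ (∀ l < k, y k ≠ y l) ∧
      ∑ l ∈ (Finset.range k).filter (fun l => close (k % N) (l % N)), (-Real.log |y k - y l|) ≤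
        ((Finset.range k).filter (fun l => close (k % N) (l % N))).card *
          (Real.log (2 / s) + 1) := by
  apply exists_seq (fun k y v => v ∈ S (k % N) ∧ (∀ l < k, v ≠ y l) ∧
      ∑ l ∈ (Finset.range k).filter (fun l => close (k % N) (l % N)), (-Real.log |v - y l|) ≤
        ((Finset.range k).filter (fun l => close (k % N) (l % N))).card *
          (Real.log (2 / s) + 1))
  · intro k f g v hfg ⟨h1, h2, h3⟩
    refine ⟨h1, fun l hl => by rw [← hfg l hl]; exact h2 l hl, ?_⟩
    convert h3 using 1
    apply Finset.sum_congr rfl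
    intro l hl
    simp only [Finset.mem_filter, Finset.mem_range] at hl
    rw [hfg l hl.1]
  · intro k f
    have hk : k % N < N := Nat.mod_lt _ hN
    exact pick (hS _ hk) (hSb _ hk) hs (hvol _ hk) _ f k

lemma sum_mod {N : ℕ} (f : ℕ → ℝ) (L : ℕ) :
    ∑ k ∈ Finset.range (N * L), f (k % N) = L * ∑ i ∈ Finset.range N, f i := by
  induction L with
  | zero => simp
  | succ L ih =>
    rw [Nat.mul_succ, Finset.sum_range_add, ih]
    have : ∑ x ∈ Finset.range N, f ((N * L + x) % N) = ∑ i ∈ Finset.range N, f i := by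
      apply Finset.sum_congr rfl
      intro x hx
      rw [Nat.mul_add_mod, Nat.mod_eq_of_lt (Finset.mem_range.mp hx)]
    rw [this]
    push_cast
    ring

lemma sum_tri {m : ℕ} (A : ℕ → ℕ → ℝ) (hsymm : ∀ k l, A k l = A l k) (hdiag : ∀ k, 0 ≤ A k k) :
    ∑ k ∈ Finset.range m, ∑ l ∈ Finset.range k, A k l ≤
      1 / 2 * ∑ k ∈ Finset.range m, ∑ l ∈ Finset.range m, A k l := by
  induction m with
  | zero => simp
  | succ m ih =>
    rw [Finset.sum_range_succ, Finset.sum_range_succ (fun k => ∑ l ∈ Finset.range (m + 1), A k l)]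
    have h1 : ∑ k ∈ Finset.range m, ∑ l ∈ Finset.range (m + 1), A k l =
        ∑ k ∈ Finset.range m, ∑ l ∈ Finset.range m, A k l + ∑ l ∈ Finset.range m, A m l := by
      rw [← Finset.sum_add_distrib]
      apply Finset.sum_congr rfl
      intro k _
      rw [Finset.sum_range_succ, hsymm k m]
    rw [h1, Finset.sum_range_succ (fun l => A m l)]
    have := hdiag m
    linarith

/-- From a matrix bound to the energy bound of the sequence. -/
lemma energy_seq {N : ℕ} {y : ℕ → ℝ} (a : ℕ → ℕ → ℝ) (hsymm : ∀ i j, a i j = a j i)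
    (hdiag : ∀ i, 0 ≤ a i i)
    (hle : ∀ k, ∑ l ∈ Finset.range k, (-Real.log |y k - y l|) ≤
      ∑ l ∈ Finset.range k, a (k % N) (l % N)) {c : ℝ}
    (hc : ∑ i ∈ Finset.range N, ∑ j ∈ Finset.range N, a i j ≤ c * (N:ℝ) ^ 2) (L : ℕ) :
    ∑ k ∈ Finset.range (N * L), ∑ l ∈ Finset.range k, (-Real.log |y k - y l|) ≤
      c / 2 * ((N * L : ℕ) : ℝ) ^ 2 := by
  calc ∑ k ∈ Finset.range (N * L), ∑ l ∈ Finset.range k, (-Real.log |y k - y l|)
      ≤ ∑ k ∈ Finset.range (N * L), ∑ l ∈ Finset.range k, a (k % N) (l % N) :=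
        Finset.sum_le_sum fun k _ => hle k
    _ ≤ 1 / 2 * ∑ k ∈ Finset.range (N * L), ∑ l ∈ Finset.range (N * L), a (k % N) (l % N) :=
        sum_tri (fun k l => a (k % N) (l % N)) (fun k l => hsymm _ _) (fun k => hdiag _)
    _ = 1 / 2 * (L * (L * ∑ i ∈ Finset.range N, ∑ j ∈ Finset.range N, a i j)) := by
        congr 1
        rw [sum_mod (fun i => ∑ l ∈ Finset.range (N * L), a i (l % N)) L]
        congr 1
        rw [Finset.mul_sum]
        apply Finset.sum_congr rfl
        intro i _
        exact sum_mod (fun j => a i j) L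
    _ ≤ 1 / 2 * (L * (L * (c * (N:ℝ) ^ 2))) := by gcongr
    _ = _ := by push_cast; ring

end Pool.Agent.helper22.Erdos
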