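import Mathlib
open Polynomial MeasureTheory Set Filter Topology

namespace Pool.Agent.helper22.Erdos

lemma sum_range_cast (m : ℕ) : ∑ k ∈ Finset.range m, (k:ℝ) = (m:ℝ) * (m - 1) / 2 := by
  induction m with
  | zero => simp
  | succ m ih => rw [Finset.sum_range_succ, ih]; push_cast; ring

lemma prod_Iio_range {m : ℕ} (F : ℕ → ℕ → ℝ) :
    ∏ i : Fin m, ∏ j ∈ Finset.Iio i, F i j = ∏ k ∈ Finset.range m, ∏ l ∈ Finset.range k, F k l := by
  rw [Finset.prod_range]
  apply Finset.prod_congr rfl
  intro i _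
  have h1 : Finset.range (i : ℕ) = (Finset.Iio i).map Fin.valEmbedding := by
    rw [Fin.map_valEmbedding_Iio, Nat.Iio_eq_range]
  rw [h1, Finset.prod_map]
  rfl

lemma vander_bound (m : ℕ) (y : ℕ → ℝ) {G : Set ℝ} (hy : ∀ k, y k ∈ G) (P : ℕ → ℝ[X])
    (hmon : ∀ k, (P k).Monic) (hdeg : ∀ k, (P k).natDegree = k) (B : ℕ → ℝ)
    (hB : ∀ k, ∀ x ∈ G, |(P k).eval x| ≤ B k) :
    ∏ k ∈ Finset.range m, ∏ l ∈ Finset.range k, |y k - y l| ≤
      (m.factorial : ℝ) * ∏ k ∈ Finset.range m, B k := by
  have h1 : ∏ k ∈ Finset.range m, ∏ l ∈ Finset.range k, |y k - y l| =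
      |(Matrix.vandermonde (fun i : Fin m => y i)).det| := by
    rw [Matrix.det_vandermonde, Finset.abs_prod, ← prod_Iio_range]
    rw [Finset.prod_sigma', Finset.prod_congr rfl (fun i _ => Finset.abs_prod _ _),
      Finset.prod_sigma']
    apply Finset.prod_bij' (fun a _ => ⟨a.2, a.1⟩) (fun a _ => ⟨a.2, a.1⟩)
    all_goals simp
  rw [h1, Matrix.det_eval_matrixOfPolynomials_eq_det_vandermonde (fun i : Fin m => y i)
    (fun i : Fin m => P i) (fun i => hdeg i) (fun i => hmon i), Matrix.det_apply]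
  calc |∑ σ : Equiv.Perm (Fin m), Equiv.Perm.sign σ •
        ∏ i, (Matrix.of fun i j : Fin m => eval (y i) (P j)) (σ i) i|
      ≤ ∑ σ : Equiv.Perm (Fin m), |Equiv.Perm.sign σ •
        ∏ i, (Matrix.of fun i j : Fin m => eval (y i) (P j)) (σ i) i| :=
        Finset.abs_sum_le_sum_abs _ _
    _ ≤ ∑ σ : Equiv.Perm (Fin m), ∏ k ∈ Finset.range m, B k := by
        apply Finset.sum_le_sum
        intro σ _
        have h2 : |Equiv.Perm.sign σ •
          ∏ i, (Matrix.of fun i j : Fin m => eval (y i) (P j)) (σ i) i| =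
          ∏ i : Fin m, |eval (y (σ i)) (P i)| := by
          rcases Int.units_eq_one_or (Equiv.Perm.sign σ) with h | h
          · rw [h, one_smul, Finset.abs_prod]; rfl
          · rw [h, Units.neg_smul, one_smul, abs_neg, Finset.abs_prod]; rfl
        rw [h2, Finset.prod_range]
        apply Finset.prod_le_prod
        · intro i _; exact abs_nonneg _
        · intro i _; exact hB i _ (hy _)
    _ = _ := by
        rw [Finset.sum_const, Finset.card_univ, Fintype.card_perm, Fintype.card_fin, nsmul_eq_mul]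

/-- If a sequence in `G` has small logarithmic energy then every monic polynomial is large on `G`. -/
theorem cheb_lower {G : Set ℝ} (hG : G ⊆ Icc (-1:ℝ) 1) {y : ℕ → ℝ} (hy : ∀ k, y k ∈ G)
    (hne : ∀ k, ∀ l < k, y k ≠ y l) {c : ℝ} (hc : 0 ≤ c) {N : ℕ} (hN : 0 < N)
    (hE : ∀ L : ℕ, ∑ k ∈ Finset.range (N * L), ∑ l ∈ Finset.range k, (-Real.log |y k - y l|) ≤
      c / 2 * ((N * L : ℕ) : ℝ) ^ 2) {q : ℝ[X]} (hq : q.Monic) (hd : 1 ≤ q.natDegree)
    {S : ℝ} (hS : ∀ x ∈ G, |q.eval x| ≤ S) : Real.exp (-(c * q.natDegree)) ≤ S := by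
  by_contra hcon
  push Not at hcon
  set d := q.natDegree with hdd
  have hdR : (1:ℝ) ≤ d := by exact_mod_cast hd
  have hS0 : 0 ≤ S := (abs_nonneg _).trans (hS (y 0) (hy 0))
  set S' := max S (Real.exp (-((c + 1) * d))) with hS'
  have hS'pos : 0 < S' := lt_of_lt_of_le (Real.exp_pos _) (le_max_right _ _)
  have hS'lt : S' < Real.exp (-(c * d)) := by
    apply max_lt hcon
    apply Real.exp_lt_exp.mpr
    nlinarith
  set c' := -Real.log S' / d with hc'
  have hcc' : c < c' := by
    rw [hc', lt_div_iff₀ (by linarith)]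
    have := Real.log_lt_log hS'pos hS'lt
    rw [Real.log_exp] at this
    linarith
  have hc'0 : 0 ≤ c' := hc.trans hcc'.le
  have hS'eq : S' = Real.exp (-(c' * d)) := by
    rw [hc', div_mul_cancel₀ _ (by positivity), neg_neg, Real.exp_log hS'pos]
  set P : ℕ → ℝ[X] := fun k => q ^ (k / d) * X ^ (k % d) with hP
  have hPmon : ∀ k, (P k).Monic := fun k => (hq.pow _).mul (monic_X_pow _)
  have hPdeg : ∀ k, (P k).natDegree = k := by
    intro k
    rw [hP]
    simp only
    rw [(hq.pow _).natDegree_mul (monic_X_pow _), hq.natDegree_pow, natDegree_X_pow, ← hdd,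
      Nat.div_add_mod' k d]
  have hPB : ∀ k, ∀ x ∈ G, |(P k).eval x| ≤ Real.exp (-(c' * ((k:ℝ) - d))) := by
    intro k x hx
    rw [hP]
    simp only [eval_mul, eval_pow, eval_X]
    rw [abs_mul, abs_pow, abs_pow]
    have hx1 : |x| ≤ 1 := abs_le.mpr (hG hx)
    have h1 : |q.eval x| ^ (k / d) ≤ S' ^ (k / d) :=
      pow_le_pow_left₀ (abs_nonneg _) ((hS x hx).trans (le_max_left _ _)) _
    have h2 : |x| ^ (k % d) ≤ 1 := pow_le_one₀ (abs_nonneg _) hx1
    calc |q.eval x| ^ (k / d) * |x| ^ (k % d) ≤ S' ^ (k / d) * 1 :=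
          mul_le_mul h1 h2 (by positivity) (by positivity)
      _ = Real.exp (-(c' * (d * (k / d : ℕ)))) := by
          rw [mul_one, hS'eq, ← Real.exp_nat_mul]
          congr 1; ring
      _ ≤ Real.exp (-(c' * ((k:ℝ) - d))) := by
          apply Real.exp_le_exp.mpr
          have h3 : (k:ℝ) - d ≤ d * (k / d : ℕ) := by
            have h4 : k < d * (k / d) + d := by
              have := Nat.lt_mul_div_succ k (show 0 < d by omega)
              rwa [Nat.mul_add, Nat.mul_one] at this
            have h5 : (k:ℝ) < d * (k / d : ℕ) + d := by exact_mod_cast h4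
            linarith
          have := mul_le_mul_of_nonneg_left h3 hc'0
          linarith
  have key : ∀ L : ℕ, 1 ≤ L → (c' - c) / 2 * ((N * L : ℕ) : ℝ) ≤
      Real.log ((N * L : ℕ) : ℝ) + c' * (1 + d) := by
    intro L hL
    set m := N * L with hm
    have hm1 : 1 ≤ m := Nat.one_le_iff_ne_zero.mpr (by positivity)
    have hmR : (1:ℝ) ≤ (m:ℝ) := by exact_mod_cast hm1
    have hV := vander_bound m y hy P hPmon hPdeg _ hPB
    have hlhs : Real.log (∏ k ∈ Finset.range m, ∏ l ∈ Finset.range k, |y k - y l|) =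
        ∑ k ∈ Finset.range m, ∑ l ∈ Finset.range k, Real.log |y k - y l| := by
      rw [Real.log_prod]
      · apply Finset.sum_congr rfl
        intro k _
        rw [Real.log_prod]
        intro l hl
        have := hne k l (Finset.mem_range.mp hl)
        exact abs_ne_zero.mpr (sub_ne_zero.mpr this)
      · intro k _
        apply Finset.prod_ne_zero_iff.mpr
        intro l hl
        have := hne k l (Finset.mem_range.mp hl)
        exact abs_ne_zero.mpr (sub_ne_zero.mpr this)
    have hlpos : 0 < ∏ k ∈ Finset.range m, ∏ l ∈ Finset.range k, |y k - y l| := by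
      apply Finset.prod_pos
      intro k _
      apply Finset.prod_pos
      intro l hl
      have := hne k l (Finset.mem_range.mp hl)
      exact abs_pos.mpr (sub_ne_zero.mpr this)
    have h1 := Real.log_le_log hlpos hV
    rw [hlhs, Real.log_mul (by positivity) (by positivity), ← Real.exp_sum, Real.log_exp] at h1
    have h2 : ∑ k ∈ Finset.range m, ∑ l ∈ Finset.range k, Real.log |y k - y l| =
        -∑ k ∈ Finset.range m, ∑ l ∈ Finset.range k, (-Real.log |y k - y l|) := by
      simp [Finset.sum_neg_distrib]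
    have h3 := hE L
    rw [← hm] at h3
    have h4 : Real.log (m.factorial : ℝ) ≤ m * Real.log m := by
      have h5 : (m.factorial : ℝ) ≤ (m:ℝ) ^ m := by exact_mod_cast Nat.factorial_le_pow m
      calc Real.log (m.factorial : ℝ) ≤ Real.log ((m:ℝ) ^ m) :=
            Real.log_le_log (by positivity) h5
        _ = m * Real.log m := Real.log_pow _ _
    have h5 : ∑ k ∈ Finset.range m, (-(c' * ((k:ℝ) - d))) =
        -(c' * ((m:ℝ) * (m - 1) / 2 - m * d)) := by
      rw [Finset.sum_neg_distrib, ← Finset.mul_sum, Finset.sum_sub_distrib]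
      rw [sum_range_cast m]
      simp
    rw [h5, h2] at h1
    have h6 : (c' - c) / 2 * (m:ℝ) * m ≤ (Real.log m + c' * (1 + d)) * m := by
      have h7 : 0 ≤ c' * m := by positivity
      nlinarith
    have hmpos : (0:ℝ) < m := by linarith
    exact le_of_mul_le_mul_right h6 hmpos
  -- contradiction as L → ∞
  have hlim : Tendsto (fun L : ℕ => ((N * L : ℕ) : ℝ)) atTop atTop := by
    have : Tendsto (fun L : ℕ => N * L) atTop atTop :=
      tendsto_id.const_mul_atTop' hN
    exact tendsto_natCast_atTop_atTop.comp this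
  have hlog : ∀ᶠ x : ℝ in atTop, Real.log x ≤ (c' - c) / 4 * x := by
    have := Real.isLittleO_log_id_atTop.bound (show 0 < (c' - c) / 4 by linarith)
    filter_upwards [this, eventually_ge_atTop 0] with x hx hx0
    rw [Real.norm_eq_abs, id, Real.norm_eq_abs, abs_of_nonneg hx0] at hx
    exact (le_abs_self _).trans hx
  have hbig : ∀ᶠ x : ℝ in atTop, c' * (1 + d) < (c' - c) / 4 * x :=
    (tendsto_id.const_mul_atTop (show 0 < (c' - c) / 4 by linarith)).eventually_gt_atTop _
  obtain ⟨L, hL1, hL2, hL3⟩ := ((hlim.eventually hlog).and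
    ((hlim.eventually hbig).and (eventually_ge_atTop 1))).exists
  have := key L hL3
  linarith

end Pool.Agent.helper22.Erdos
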