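import Mathlib
import Pool.Agent.helper22.Erdos.Robust
import Pool.Agent.helper22.Erdos.Matrix
import Pool.Agent.helper22.Erdos.Select
import Pool.Agent.helper22.Erdos.Vander
open Polynomial MeasureTheory Set Filter Topology

namespace Pool.Agent.helper22.Erdos

variable {w : ℝ → ℝ} {M : ℝ}

lemma monic_sup {P : ℝ[X]} {k : ℕ} (hmon : P.Monic) (hdeg : P.natDegree = k) {S : ℝ} (hS : 0 < S)
    (hP : ∀ x ∈ Icc (-1:ℝ) 1, |P.eval x| ≤ S) : 1 / 2 ^ k ≤ S := by
  have h1 := Chebyshev.leadingCoeff_le_of_forall_abs_le_one (n := k) (P := C (1 / S) * P) ?_ ?_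
  · rw [leadingCoeff_mul, leadingCoeff_C, hmon.leadingCoeff, mul_one] at h1
    have h2 : (2:ℝ) ^ (k - 1) ≤ 2 ^ k := pow_le_pow_right₀ (by norm_num) (by omega)
    have h3 : 1 / S ≤ 2 ^ k := h1.trans h2
    rw [div_le_iff₀ hS] at h3
    rw [div_le_iff₀ (by positivity)]
    linarith
  · have : (C (1 / S) * P).natDegree ≤ k := by
      rw [natDegree_C_mul (by positivity), hdeg]
    exact natDegree_le_iff_degree_le.mp this
  · intro x hx
    rw [eval_mul, eval_C, abs_mul, abs_of_pos (by positivity : 0 < 1 / S)]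
    have := hP x hx
    rw [one_div, inv_mul_le_iff₀ hS]
    simpa using this

lemma leja {n : ℕ} {e : ℝ} (he : 0 < e) {Gg : Set ℝ}
    (Rob : ∀ P : ℝ[X], P.natDegree ≤ n → ∀ S : ℝ, (∀ x ∈ Gg, |P.eval x| ≤ S) → 0 ≤ S →
        ∀ x ∈ Icc (-1:ℝ) 1, |P.eval x| ≤ Real.exp (e / 2) * S) :
    ∃ x : ℕ → ℝ, ∀ k < n + 1, x k ∈ Gg ∧
      Real.exp (-e) / 2 ^ k ≤ ∏ i ∈ Finset.range k, |x k - x i| := by
  apply exists_seq (fun k f v => k < n + 1 → (v ∈ Gg ∧
      Real.exp (-e) / 2 ^ k ≤ ∏ i ∈ Finset.range k, |v - f i|))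
  · intro k f g v hfg h hk
    obtain ⟨h1, h2⟩ := h hk
    refine ⟨h1, ?_⟩
    have h3 : ∏ i ∈ Finset.range k, |v - g i| = ∏ i ∈ Finset.range k, |v - f i| :=
      Finset.prod_congr rfl fun l hl => by rw [hfg l (Finset.mem_range.mp hl)]
    rw [h3]; exact h2
  · intro k f
    by_cases hk : k < n + 1
    · by_contra hcon
      push Not at hcon
      set P : ℝ[X] := ∏ i ∈ Finset.range k, (X - C (f i)) with hP
      have hmon : P.Monic := monic_prod_of_monic _ _ fun i _ => monic_X_sub_C _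
      have hdeg : P.natDegree = k := by
        rw [hP, natDegree_prod_of_monic _ _ fun i _ => monic_X_sub_C _]
        simp
      have hev : ∀ v, |P.eval v| = ∏ i ∈ Finset.range k, |v - f i| := by
        intro v
        rw [hP, eval_prod, Finset.abs_prod]
        simp
      have h1 := Rob P (by omega) (Real.exp (-e) / 2 ^ k) (fun v hv => by
        rw [hev]
        exact ((hcon v).2 hv).le) (by positivity)
      have h2 := monic_sup hmon hdeg (by positivity) h1
      have h3 : Real.exp (e / 2) * (Real.exp (-e) / 2 ^ k) = Real.exp (-(e / 2)) / 2 ^ k := by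
        rw [← mul_div_assoc, ← Real.exp_add]; congr 2; ring
      rw [h3] at h2
      have h4 : Real.exp (-(e / 2)) < 1 := by
        rw [Real.exp_lt_one_iff]; linarith
      have h5 : Real.exp (-(e / 2)) / 2 ^ k < 1 / 2 ^ k := by gcongr
      linarith
    · exact ⟨0, fun h => absurd h hk⟩

lemma cells {G : Set ℝ} (hG : MeasurableSet G) (hGb : G ⊆ Icc (-1:ℝ) 1) {K : ℕ} (hK : 0 < K)
    {s : ℝ} :
    ∃ Gg ⊆ G, MeasurableSet Gg ∧ volume (G \ Gg) ≤ ENNReal.ofReal (((K:ℝ) + 1) * s) ∧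
      ∀ x ∈ Gg, ∃ S ⊆ G, MeasurableSet S ∧ s ≤ volume.real S ∧ ∀ y ∈ S, |y - x| ≤ 2 / K := by
  classical
  have hKR : (0:ℝ) < K := by exact_mod_cast hK
  set cell : ℕ → Set ℝ := fun c => Icc (-1 + 2 * (c:ℝ) / K) (-1 + 2 * ((c:ℝ) + 1) / K) with hcell
  have hcm : ∀ c, MeasurableSet (G ∩ cell c) := fun c => hG.inter measurableSet_Icc
  set good : Finset ℕ := (Finset.range (K + 1)).filter (fun c => s ≤ volume.real (G ∩ cell c)) with hgood
  set bad : Finset ℕ := (Finset.range (K + 1)).filter (fun c => ¬ s ≤ volume.real (G ∩ cell c)) with hbad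
  refine ⟨⋃ c ∈ good, (G ∩ cell c), ?_, ?_, ?_, ?_⟩
  · exact iUnion₂_subset fun c _ => inter_subset_left
  · exact Finset.measurableSet_biUnion _ fun c _ => hcm c
  · have hcover : ∀ x ∈ G, ∃ c ∈ Finset.range (K + 1), x ∈ cell c := by
      intro x hx
      have hxI := hGb hx
      have h0 : 0 ≤ (x + 1) * K / 2 := by
        have : 0 ≤ x + 1 := by linarith [hxI.1]
        positivity
      refine ⟨⌊(x + 1) * K / 2⌋₊, ?_, ?_, ?_⟩
      · rw [Finset.mem_range]
        have : ⌊(x + 1) * K / 2⌋₊ ≤ K := by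
          apply Nat.floor_le_of_le
          have : x + 1 ≤ 2 := by linarith [hxI.2]
          nlinarith
        omega
      · have h1 := Nat.floor_le h0
        have h2 : 2 * (⌊(x + 1) * K / 2⌋₊ : ℝ) / K ≤ x + 1 := by
          rw [div_le_iff₀ hKR]; linarith
        linarith
      · have h1 := Nat.lt_floor_add_one ((x + 1) * K / 2)
        have h2 : x + 1 ≤ 2 * ((⌊(x + 1) * K / 2⌋₊ : ℝ) + 1) / K := by
          rw [le_div_iff₀ hKR]; linarith
        linarith
    have hsub : G \ (⋃ c ∈ good, (G ∩ cell c)) ⊆ ⋃ c ∈ bad, (G ∩ cell c) := by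
      intro x ⟨hxG, hxn⟩
      obtain ⟨c, hc, hxc⟩ := hcover x hxG
      simp only [mem_iUnion, mem_inter_iff, not_exists, not_and] at hxn
      simp only [mem_iUnion]
      refine ⟨c, ?_, hxG, hxc⟩
      rw [hbad, Finset.mem_filter]
      refine ⟨hc, fun hgc => ?_⟩
      exact hxn c (by rw [hgood, Finset.mem_filter]; exact ⟨hc, hgc⟩) hxG hxc
    have hfin : ∀ c, volume (G ∩ cell c) ≠ ⊤ := by
      intro c
      have : volume (G ∩ cell c) ≤ volume (Icc (-1:ℝ) 1) :=
        measure_mono (inter_subset_left.trans hGb)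
      exact (this.trans_lt (by simp)).ne
    calc volume (G \ (⋃ c ∈ good, (G ∩ cell c))) ≤ volume (⋃ c ∈ bad, (G ∩ cell c)) :=
          measure_mono hsub
      _ ≤ ∑ c ∈ bad, volume (G ∩ cell c) := measure_biUnion_finset_le _ _
      _ ≤ ∑ c ∈ bad, ENNReal.ofReal s := by
          apply Finset.sum_le_sum
          intro c hc
          rw [hbad, Finset.mem_filter] at hc
          have h1 := not_le.mp hc.2
          rw [← ENNReal.ofReal_toReal (hfin c)]
          exact ENNReal.ofReal_le_ofReal h1.le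
      _ = bad.card * ENNReal.ofReal s := by rw [Finset.sum_const, nsmul_eq_mul]
      _ ≤ ENNReal.ofReal ((K:ℝ) + 1) * ENNReal.ofReal s := by
          gcongr
          have h1 : bad.card ≤ K + 1 := by
            calc bad.card ≤ (Finset.range (K + 1)).card := Finset.card_filter_le _ _
              _ = K + 1 := Finset.card_range _
          have h2 : ENNReal.ofReal ((K:ℝ) + 1) = ((K + 1 : ℕ) : ENNReal) := by
            rw [← ENNReal.ofReal_natCast]; push_cast; rfl
          rw [h2]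
          exact_mod_cast h1
      _ = ENNReal.ofReal (((K:ℝ) + 1) * s) := (ENNReal.ofReal_mul (by positivity)).symm
  · intro x hx
    simp only [mem_iUnion] at hx
    obtain ⟨c, hc, hxG, hxc⟩ := hx
    rw [hgood, Finset.mem_filter] at hc
    refine ⟨G ∩ cell c, inter_subset_left, hcm c, hc.2, ?_⟩
    rintro y ⟨_, hyc⟩
    have h1 : 2 * ((c:ℝ) + 1) / K - 2 * (c:ℝ) / K = 2 / K := by ring
    rw [abs_le]
    constructor <;> linarith [hxc.1, hxc.2, hyc.1, hyc.2]

end Pool.Agent.helper22.Erdos
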