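import Mathlib
import Pool.Agent.helper22.Erdos.Core
open Polynomial MeasureTheory Set Filter Topology

namespace Pool.Agent.helper22.Erdos

variable {w : ℝ → ℝ} {M : ℝ}

lemma ev_params {ε : ℝ} (hε : 0 < ε) : ∀ᶠ n : ℕ in atTop,
    1 ≤ n ∧ Real.log 2 + 1 ≤ ε * n ∧ Real.exp (-(ε * n)) ≤ 1 / 8 ∧
    ((n:ℝ) + 1) ^ 2 * (2 * Real.exp (-(ε * n))) ≤ ε * n ∧
    4 * Real.exp (-(4 * (ε * n))) ≤ ε := by
  have hlin : Tendsto (fun n : ℕ => ε * (n:ℝ)) atTop atTop :=
    (tendsto_natCast_atTop_atTop).const_mul_atTop hε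
  have hexp : Tendsto (fun n : ℕ => Real.exp (-(ε * n))) atTop (𝓝 0) :=
    Real.tendsto_exp_neg_atTop_nhds_zero.comp hlin
  have h4 : Tendsto (fun n : ℕ => 4 * Real.exp (-(4 * (ε * n)))) atTop (𝓝 (4 * 0)) := by
    apply Tendsto.const_mul
    exact Real.tendsto_exp_neg_atTop_nhds_zero.comp (hlin.const_mul_atTop (by norm_num))
  rw [mul_zero] at h4
  have h3 : ∀ᶠ n : ℕ in atTop, ((n:ℝ) + 1) ^ 2 * (2 * Real.exp (-(ε * n))) ≤ ε * n := by
    have h5 : Tendsto (fun y : ℝ => y ^ 2 * Real.exp (-y)) atTop (𝓝 0) :=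
      Real.tendsto_pow_mul_exp_neg_atTop_nhds_zero 2
    have h6 := (h5.comp hlin).const_mul (8 / ε ^ 2)
    rw [mul_zero] at h6
    filter_upwards [h6.eventually_le_const (show (0:ℝ) < ε by exact hε),
      eventually_ge_atTop 1] with n hn hn1
    have hnR : (1:ℝ) ≤ n := by exact_mod_cast hn1
    simp only [Function.comp] at hn
    have h7 : ((n:ℝ) + 1) ^ 2 ≤ 4 * (n:ℝ) ^ 2 := by nlinarith
    have h8 : 0 < Real.exp (-(ε * n)) := Real.exp_pos _
    calc ((n:ℝ) + 1) ^ 2 * (2 * Real.exp (-(ε * n))) ≤ (4 * (n:ℝ) ^ 2) * (2 * Real.exp (-(ε * n))) := by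
          gcongr
      _ = 8 / ε ^ 2 * ((ε * n) ^ 2 * Real.exp (-(ε * n))) := by field_simp; ring
      _ ≤ ε := hn
      _ ≤ ε * n := by nlinarith
  filter_upwards [eventually_ge_atTop 1, hlin.eventually_ge_atTop (Real.log 2 + 1),
    hexp.eventually_le_const (show (0:ℝ) < 1 / 8 by norm_num), h3,
    h4.eventually_le_const hε] with n a b c d e
  exact ⟨a, b, c, d, e⟩

theorem main_core (h : Wt w M) (hreg : RegLow w) {ε : ℝ} (hε : 0 < ε) :
    ∃ ε' : ℝ, 0 < ε' ∧ ∀ E : Set ℝ, MeasurableSet E →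
      E ⊆ {x : ℝ | x ∈ Icc (-1:ℝ) 1 ∧ 0 < w x} →
      volume ({x : ℝ | x ∈ Icc (-1:ℝ) 1 ∧ 0 < w x} \ E) ≤ ENNReal.ofReal ε' →
      ∃ F : Set ℝ, IsCompact F ∧ F ⊆ E ∧ F.Nonempty ∧ ∀ q : ℝ[X], q.Monic → 1 ≤ q.natDegree →
        ∀ S : ℝ, (∀ x ∈ F, |q.eval x| ≤ S) →
          Real.exp (-((Real.log 2 + 80 * ε) * q.natDegree)) ≤ S := by
  classical
  obtain ⟨n, hrob, hn1, hlog, hexp8, hn3, hκ⟩ :=
    ((robust h hreg (ε := ε / 2) (by positivity)).and (ev_params hε)).exists
  have hnR : (1:ℝ) ≤ n := by exact_mod_cast hn1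
  have hlog2 : 0 < Real.log 2 := Real.log_pos (by norm_num)
  set e := ε * n with he
  have he0 : 0 < e := by positivity
  set E0 : Set ℝ := {x : ℝ | x ∈ Icc (-1:ℝ) 1 ∧ 0 < w x} with hE0
  refine ⟨Real.exp (-(e / 2)) / 4, by positivity, ?_⟩
  intro E hE hEE0 hvol
  have hEb : E ⊆ Icc (-1:ℝ) 1 := fun x hx => (hEE0 hx).1
  have hEfin : volume E ≠ ⊤ :=
    ((measure_mono hEb).trans_lt (by simp : volume (Icc (-1:ℝ) 1) < ⊤)).ne
  obtain ⟨F, hFE, hFc, hFvol⟩ := hE.exists_isCompact_sdiff_lt hEfin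
    (show ENNReal.ofReal (Real.exp (-(e / 2)) / 4) ≠ 0 by
      simp only [ne_eq, ENNReal.ofReal_eq_zero, not_le]; positivity)
  have hFm : MeasurableSet F := hFc.measurableSet
  have hFb : F ⊆ Icc (-1:ℝ) 1 := hFE.trans hEb
  -- cells
  set K : ℕ := ⌈2 * Real.exp (8 * e)⌉₊ with hK
  have hK1 : 2 * Real.exp (8 * e) ≤ K := Nat.le_ceil _
  have hKposR : (0:ℝ) < K := lt_of_lt_of_le (by positivity) hK1
  have hKpos : 0 < K := by exact_mod_cast hKposR
  have hK2 : (K:ℝ) ≤ 2 * Real.exp (8 * e) + 1 := (Nat.ceil_lt_add_one (by positivity)).le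
  set s := Real.exp (-(10 * e)) with hs
  have hs0 : 0 < s := Real.exp_pos _
  obtain ⟨Gg, hGgF, hGgm, hGgvol, hGg⟩ := cells hFm hFb hKpos (s := s)
  have hexp1 : 1 ≤ Real.exp (8 * e) := Real.one_le_exp (by positivity)
  have hKs : ((K:ℝ) + 1) * s ≤ Real.exp (-(e / 2)) / 2 := by
    calc ((K:ℝ) + 1) * s ≤ (4 * Real.exp (8 * e)) * s := by
          gcongr; linarith
      _ = 4 * Real.exp (-(2 * e)) := by
          rw [hs, mul_assoc, ← Real.exp_add]; congr 2; ring
      _ = 4 * (Real.exp (-(3 / 2 * e)) * Real.exp (-(e / 2))) := by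
          rw [← Real.exp_add]; congr 2; ring
      _ ≤ 4 * (1 / 8 * Real.exp (-(e / 2))) := by
          have : Real.exp (-(3 / 2 * e)) ≤ 1 / 8 := by
            refine le_trans (Real.exp_le_exp.mpr ?_) hexp8
            linarith
          gcongr
      _ = _ := by ring
  have hvolGg : volume (E0 \ Gg) ≤ ENNReal.ofReal (Real.exp (-(ε / 2 * n))) := by
    have hsub : E0 \ Gg ⊆ (E0 \ E) ∪ ((E \ F) ∪ (F \ Gg)) := by
      intro x ⟨hx, hxn⟩
      by_cases h1 : x ∈ E
      · by_cases h2 : x ∈ F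
        · exact Or.inr (Or.inr ⟨h2, hxn⟩)
        · exact Or.inr (Or.inl ⟨h1, h2⟩)
      · exact Or.inl ⟨hx, h1⟩
    calc volume (E0 \ Gg) ≤ volume ((E0 \ E) ∪ ((E \ F) ∪ (F \ Gg))) := measure_mono hsub
      _ ≤ volume (E0 \ E) + (volume (E \ F) + volume (F \ Gg)) :=
          (measure_union_le _ _).trans (add_le_add le_rfl (measure_union_le _ _))
      _ ≤ ENNReal.ofReal (Real.exp (-(e / 2)) / 4) + (ENNReal.ofReal (Real.exp (-(e / 2)) / 4) +
          ENNReal.ofReal (Real.exp (-(e / 2)) / 2)) :=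
          add_le_add hvol (add_le_add hFvol.le (hGgvol.trans (ENNReal.ofReal_le_ofReal hKs)))
      _ = ENNReal.ofReal (Real.exp (-(ε / 2 * n))) := by
          rw [← ENNReal.ofReal_add (by positivity) (by positivity),
            ← ENNReal.ofReal_add (by positivity) (by positivity)]
          congr 1
          have : ε / 2 * n = e / 2 := by rw [he]; ring
          rw [this]; ring
  have Rob := hrob Gg hGgm hvolGg
  obtain ⟨x, hx⟩ := leja (n := n) he0 (Gg := Gg) (by
    intro P hP S hS hS0 x hx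
    have := Rob P hP S hS hS0 x hx
    have h2 : ε / 2 * n = e / 2 := by rw [he]; ring
    rwa [h2] at this)
  -- distinctness and H1
  have hprodpos : ∀ k < n + 1, 0 < ∏ i ∈ Finset.range k, |x k - x i| := fun k hk =>
    lt_of_lt_of_le (by positivity) (hx k hk).2
  have hlt : ∀ k < n + 1, ∀ i < k, 0 < |x k - x i| := by
    intro k hk i hi
    rcases (abs_nonneg (x k - x i)).lt_or_eq with h1 | h1
    · exact h1
    · exfalso
      have := hprodpos k hk
      rw [Finset.prod_eq_zero (Finset.mem_range.mpr hi) h1.symm] at this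
      exact lt_irrefl _ this
  have hne : ∀ i < n + 1, ∀ j < n + 1, i ≠ j → x i ≠ x j := by
    intro i hi j hj hij heq
    rcases lt_or_gt_of_ne hij with h1 | h1
    · have := hlt j hj i h1
      rw [heq] at this; simp at this
    · have := hlt i hi j h1
      rw [heq] at this; simp at this
  have H1 : ∀ k < n + 1, -(ε * n) ≤ ∑ i ∈ Finset.range k, Real.log (2 * |x k - x i|) := by
    intro k hk
    rw [← Real.log_prod]
    · have h1 : Real.exp (-e) ≤ ∏ i ∈ Finset.range k, (2 * |x k - x i|) := by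
        rw [Finset.prod_mul_distrib, Finset.prod_const, Finset.card_range]
        have := (hx k hk).2
        rw [div_le_iff₀ (by positivity)] at this
        linarith
      have h2 := Real.log_le_log (Real.exp_pos _) h1
      rwa [Real.log_exp] at h2
    · intro i hi
      have := hlt k hk i (Finset.mem_range.mp hi)
      positivity
  have hxb : ∀ i < n + 1, x i ∈ Icc (-1:ℝ) 1 := fun i hi => hFb (hGgF (hx i hi).1)
  have hSex : ∀ i, ∃ S : Set ℝ, i < n + 1 → (S ⊆ F ∧ MeasurableSet S ∧ s ≤ volume.real S ∧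
      ∀ y ∈ S, |y - x i| ≤ 2 / K) := by
    intro i
    by_cases hi : i < n + 1
    · obtain ⟨S, h1, h2, h3, h4⟩ := hGg (x i) (hx i hi).1
      exact ⟨S, fun _ => ⟨h1, h2, h3, h4⟩⟩
    · exact ⟨∅, fun h => absurd h hi⟩
  choose S hS using hSex
  have hN : 0 < n + 1 := Nat.succ_pos n
  obtain ⟨y, hy⟩ := exists_points hN (S := S) (fun i hi => (hS i hi).2.1)
    (fun i hi => (hS i hi).1.trans hFb) hs0 (fun i hi => (hS i hi).2.2.1)
    (fun i j => |x i - x j| ≤ Real.exp (-(4 * e)))
  set Λ := Real.log (2 / s) + 1 with hΛ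
  have hΛval : Λ = Real.log 2 + 10 * e + 1 := by
    rw [hΛ, Real.log_div (by norm_num) hs0.ne', hs, Real.log_exp]; ring
  set κ := 4 * Real.exp (-(4 * e)) with hκd
  set a : ℕ → ℕ → ℝ := fun i j =>
    if |x i - x j| ≤ Real.exp (-(4 * e)) then Λ else -Real.log |x i - x j| + κ with ha
  have hmb := matrix_bound (n := n) (ε := ε) (κ := κ) (Λ := Λ) (x := x) hε hxb hne H1
    (by positivity) hκ (by rw [hΛval]; positivity) (by rw [hΛval]; linarith) (by linarith)
    (hexp8.trans (by norm_num)) hn3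
  have hyF : ∀ k, y k ∈ F := fun k => (hS _ (Nat.mod_lt _ hN)).1 (hy k).1
  have hle : ∀ k, ∑ l ∈ Finset.range k, (-Real.log |y k - y l|) ≤
      ∑ l ∈ Finset.range k, a (k % (n + 1)) (l % (n + 1)) := by
    intro k
    set i := k % (n + 1) with hi
    have hiN : i < n + 1 := Nat.mod_lt _ hN
    have hsplit : ∀ f : ℕ → ℝ, ∑ l ∈ Finset.range k, f l =
        ∑ l ∈ (Finset.range k).filter (fun l => |x i - x (l % (n + 1))| ≤ Real.exp (-(4 * e))), f l +
        ∑ l ∈ (Finset.range k).filter (fun l => ¬ |x i - x (l % (n + 1))| ≤ Real.exp (-(4 * e))), f l :=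
      fun f => (Finset.sum_filter_add_sum_filter_not _ _ _).symm
    rw [hsplit, hsplit]
    apply add_le_add
    · refine (hy k).2.2.trans ?_
      have h1 : ∀ l ∈ (Finset.range k).filter
          (fun l => |x i - x (l % (n + 1))| ≤ Real.exp (-(4 * e))), a i (l % (n + 1)) = Λ := by
        intro l hl
        rw [Finset.mem_filter] at hl
        simp only [ha]
        rw [if_pos hl.2]
      rw [Finset.sum_congr rfl h1, Finset.sum_const, nsmul_eq_mul]
    · apply Finset.sum_le_sum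
      intro l hl
      rw [Finset.mem_filter] at hl
      have hjN : l % (n + 1) < n + 1 := Nat.mod_lt _ hN
      set j := l % (n + 1) with hj
      simp only [ha]
      rw [if_neg hl.2]
      have hfar := not_le.mp hl.2
      set δ := |x i - x j| with hδ
      have h1 : |y k - x i| ≤ 2 / K := (hS i hiN).2.2.2 _ (hy k).1
      have h2 : |y l - x j| ≤ 2 / K := (hS j hjN).2.2.2 _ (hy l).1
      have h3 : 2 / (K:ℝ) ≤ Real.exp (-(8 * e)) := by
        rw [div_le_iff₀ hKposR]
        calc (2:ℝ) = Real.exp (-(8 * e)) * (2 * Real.exp (8 * e)) := by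
              have : Real.exp (-(8 * e)) * Real.exp (8 * e) = 1 := by
                rw [← Real.exp_add]; simp
              linarith
          _ ≤ Real.exp (-(8 * e)) * K := by gcongr
      have h4 : δ ≤ |y k - y l| + 2 * Real.exp (-(8 * e)) := by
        have h5 : x i - x j = (x i - y k) + (y k - y l) + (y l - x j) := by ring
        calc δ = |(x i - y k) + (y k - y l) + (y l - x j)| := by rw [hδ, h5]
          _ ≤ |x i - y k| + |y k - y l| + |y l - x j| := abs_add_three _ _ _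
          _ = |y k - x i| + |y k - y l| + |y l - x j| := by rw [abs_sub_comm (x i)]
          _ ≤ _ := by linarith
      have h5 : 2 * Real.exp (-(8 * e)) ≤ 2 * Real.exp (-(4 * e)) * δ := by
        have : Real.exp (-(8 * e)) = Real.exp (-(4 * e)) * Real.exp (-(4 * e)) := by
          rw [← Real.exp_add]; congr 1; ring
        rw [this]
        have := Real.exp_pos (-(4 * e))
        nlinarith
      have hδpos : 0 < δ := (Real.exp_pos _).trans hfar
      have h6 : Real.exp (-(4 * e)) ≤ 1 / 8 := by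
        refine le_trans (Real.exp_le_exp.mpr ?_) hexp8
        linarith
      have h7 : δ * (1 - 2 * Real.exp (-(4 * e))) ≤ |y k - y l| := by nlinarith
      have h8 : 0 < 1 - 2 * Real.exp (-(4 * e)) := by linarith
      have h9 := Real.log_le_log (by positivity) h7
      rw [Real.log_mul hδpos.ne' h8.ne'] at h9
      have h10 : -κ ≤ Real.log (1 - 2 * Real.exp (-(4 * e))) := by
        have h11 := Real.one_sub_inv_le_log_of_pos h8
        have h12 : (1 - 2 * Real.exp (-(4 * e)))⁻¹ ≤ 1 + κ := by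
          rw [inv_eq_one_div, div_le_iff₀ h8, hκd]
          have := Real.exp_pos (-(4 * e))
          nlinarith
        linarith
      linarith
  have hsymm : ∀ i j, a i j = a j i := by
    intro i j; simp only [ha]; rw [abs_sub_comm]
  have hdiag : ∀ i, 0 ≤ a i i := by
    intro i
    simp only [ha]
    have h1 : |x i - x i| ≤ Real.exp (-(4 * e)) := by
      simp only [sub_self, abs_zero]; exact (Real.exp_pos _).le
    rw [if_pos h1, hΛval]; positivity
  have hE := energy_seq (N := n + 1) (y := y) a hsymm hdiag hle hmb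
  refine ⟨F, hFc, hFE, ⟨y 0, hyF 0⟩, ?_⟩
  intro q hq hd S hS'
  exact cheb_lower hFb hyF (fun k l hl => (hy k).2.1 l hl) (by positivity) hN hE hq hd hS'

end Pool.Agent.helper22.Erdos
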